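import Pool.Agent.X288.L2.Base

/-! Combinations of sizes at several heights, for arbitrary class functions. -/

set_option autoImplicit false
open Classical

namespace Pool.Agent.V7H83.BO

open Complex Filter Topology ComplexConjugate NumberField IsDedekindDomain Asymptotics
  Pool.Agent.W401.Cheb Pool.Agent.W540.BE Pool.Agent.W353.L1 Pool.Agent.W353.NF
open Pool.Agent.W353.TP (HX sysH LL LL_tendsto)
open Pool.Agent.H341R2 (lam lam_tendsto sysK)
open Pool.Agent.TH322.BC Pool.Agent.X288.L2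

section
variable {K : Type} [Field K] [NumberField K] {U : Subgroup (GK K)} {ι : Type} [Fintype ι]

/-- the mean of the square of a combination of class functions with heights -/
noncomputable def gramG (U : Subgroup (GK K)) (ψ : ι → GK K → ℝ) (τ c : ι → ℝ) : ℝ :=
  ∑ k, ∑ l, c k * c l * (hw (τ k) (τ l) * avR U fun q => ψ k q.out * ψ l q.out)

theorem lim_gram [U.Normal] (hU : IsOpen (U : Set (GK K))) [Finite (GK K ⧸ U)]
    {σ : HeightOneSpectrum (𝓞 K) → GK K} (hσ : ∀ v, IsFrob v (σ v))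
    {ψ : ι → GK K → ℝ} (hcl : ∀ k, Cls U (ψ k)) (τ c : ι → ℝ) :
    (∃ B : ℝ, ∀ v, |(∑ k, c k * (ψ k (σ v) * cz (τ k) v)) ^ 2| ≤ B) ∧
    Tendsto (fun ε : ℝ => (EP (nm K) ε fun v => (∑ k, c k *
      (ψ k (σ v) * cz (τ k) v)) ^ 2) / lam ε) (𝓝[>] 0) (𝓝 (gramG U ψ τ c)) :=
  has_sq hU σ hσ Finset.univ (fun k _ => hcl k) τ c

theorem gram_nonneg [U.Normal] (hU : IsOpen (U : Set (GK K))) [Finite (GK K ⧸ U)]
    {ψ : ι → GK K → ℝ} (hcl : ∀ k, Cls U (ψ k)) (τ c : ι → ℝ) : 0 ≤ gramG U ψ τ c := by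
  choose σ hσ using exists_isFrob (F := K)
  refine ge_of_tendsto (lim_gram hU hσ hcl τ c).2 ?_
  filter_upwards [lam_tendsto.eventually_gt_atTop 0] with ε hε
  refine div_nonneg ?_ hε.le
  exact (sysK K).E_nonneg (ε := ε) fun v => sq_nonneg _

/-- comparison of the means of two combinations -/
theorem gram_le [U.Normal] (hU : IsOpen (U : Set (GK K))) [Finite (GK K ⧸ U)]
    {ψ φ : ι → GK K → ℝ} (hcl : ∀ k, Cls U (ψ k)) (hcl' : ∀ k, Cls U (φ k)) (τ c : ι → ℝ)
    {M : ℝ} (h : ∀ (g : GK K) (x : ι → ℝ), (∑ k, c k * (ψ k g * x k)) ^ 2 ≤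
      M * (∑ k, c k * (φ k g * x k)) ^ 2) :
    gramG U ψ τ c ≤ M * gramG U φ τ c := by
  choose σ hσ using exists_isFrob (F := K)
  obtain ⟨⟨B, hB⟩, h1⟩ := lim_gram hU hσ hcl τ c
  obtain ⟨⟨B', hB'⟩, h2⟩ := lim_gram hU hσ hcl' τ c
  have h3 := (h2.const_mul M).sub h1
  have h4 : 0 ≤ M * gramG U φ τ c - gramG U ψ τ c := by
    refine ge_of_tendsto h3 ?_
    filter_upwards [lam_tendsto.eventually_gt_atTop 0, self_mem_nhdsWithin] with ε hε hε'
    have hε0 : (0 : ℝ) < ε := hε'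
    rw [← mul_div_assoc, ← sub_div]
    refine div_nonneg ?_ hε.le
    have h5 := EP_add normSys hε0
      (φ := fun v => M * (∑ k, c k * (φ k (σ v) * cz (τ k) v)) ^ 2) (B := |M| * B')
      (fun v => by
        rw [abs_mul]
        exact mul_le_mul_of_nonneg_left (hB' v) (abs_nonneg _))
      (B' := B) (ψ := fun v => (-1) * (∑ k, c k * (ψ k (σ v) * cz (τ k) v)) ^ 2) (fun v => by
        rw [abs_mul, abs_neg, abs_one, one_mul]
        exact hB v)
    rw [EP_const_mul, EP_const_mul] at h5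
    have h6 : 0 ≤ EP (nm K) ε fun v => M * (∑ k, c k * (φ k (σ v) * cz (τ k) v)) ^ 2 +
        (-1) * (∑ k, c k * (ψ k (σ v) * cz (τ k) v)) ^ 2 :=
      (sysK K).E_nonneg (ε := ε) fun v => by
        have := h (σ v) (fun k => cz (τ k) v)
        linarith
    rw [h5] at h6
    linarith
  linarith

/-- **The inequality for several heights and arbitrary class functions.** -/
theorem multi [U.Normal] (hU : IsOpen (U : Set (GK K))) [Finite (GK K ⧸ U)]
    {σ : HeightOneSpectrum (𝓞 K) → GK K} (hσ : ∀ v, IsFrob v (σ v))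
    {T : HX K → ℝ} {N : ℝ} (hT : ∀ x, |T x| ≤ N) {β : ℝ} (hβ : 0 ≤ β) (hsec : Sec T β)
    {ψ : ι → GK K → ℝ} (hcl : ∀ k, Cls U (ψ k))
    {τ : ι → ℝ} {X : ι → ℝ → ℝ}
    (hX : ∀ k, SzH T (fun v => ψ k (σ v) * cz (τ k) v) (X k)) (c : ι → ℝ) {η : ℝ} (hη : 0 < η) :
    ∀ᶠ ε : ℝ in 𝓝[>] 0, (∑ k, c k * X k ε) ^ 2 ≤ β * gramG U ψ τ c + η := by
  choose M hM0 hM using fun k => (hcl k).bdd
  have hB1 : ∀ k, ∀ v, |ψ k (σ v) * cz (τ k) v| ≤ M k := by
    intro k v
    rw [abs_mul]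
    calc |ψ k (σ v)| * |cz (τ k) v| ≤ M k * 1 :=
          mul_le_mul (hM k _) (abs_cz _ _) (abs_nonneg _) (hM0 k).le
      _ = M k := mul_one _
  have h1 := SzH.sum Finset.univ (fun k _ => hX k) hT (fun k _ v => hB1 k v) c
  have hA0 : 0 ≤ gramG U ψ τ c := gram_nonneg hU hcl τ c
  obtain ⟨⟨B, hB⟩, hlim⟩ := lim_gram hU hσ hcl τ c
  refine sq_lim hβ hA0 (fun γ hγ η' hη' => ?_) hη
  obtain ⟨B1, hB2⟩ : ∃ B1 : ℝ, ∀ v, |∑ k, c k * (ψ k (σ v) * cz (τ k) v)| ≤ B1 := by
    refine ⟨∑ k, |c k| * M k, fun v =>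
      (Finset.abs_sum_le_sum_abs _ _).trans (Finset.sum_le_sum fun k _ => ?_)⟩
    rw [abs_mul]
    exact mul_le_mul_of_nonneg_left (hB1 k v) (abs_nonneg _)
  refine size_le_G (G := fun y => y ^ 2 / (2 * γ)) hT hB2 h1 hsec hγ.le
    (B' := B / (2 * γ)) (fun v => ?_) (fun t y _ => amgm hγ t y) (fun η'' hη'' => ?_) hη'
  · rw [abs_div, abs_of_pos (by positivity : 0 < 2 * γ)]
    exact div_le_div_of_nonneg_right (hB v) (by positivity)
  · have h5 := hlim.const_mul (1 / (2 * γ))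
    have h6 : 1 / (2 * γ) * gramG U ψ τ c < gramG U ψ τ c / (2 * γ) + η'' := by
      rw [one_div, inv_mul_eq_div]
      linarith
    refine (h5.eventually_lt_const h6).mono fun ε hε => le_trans (le_of_eq ?_) hε.le
    rw [← mul_div_assoc, ← EP_const_mul]
    congr 2
    funext v
    ring

end

section
variable {ι : Type} [Fintype ι]

/-- Schur's bound -/
theorem schur {w : ι → ι → ℝ} (h0 : ∀ k l, 0 ≤ w k l) (hs : ∀ k l, w k l = w l k) {A : ι → ℝ}
    (h1 : ∀ k, ∑ l, w k l ≤ A k) (c : ι → ℝ) :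
    ∑ k, ∑ l, c k * c l * w k l ≤ ∑ k, c k ^ 2 * A k := by
  have h2 : ∀ k l, c k * c l * w k l ≤ (c k ^ 2 * w k l + c l ^ 2 * w l k) / 2 := by
    intro k l
    rw [hs l k]
    nlinarith [mul_nonneg (h0 k l) (sq_nonneg (c k - c l))]
  calc ∑ k, ∑ l, c k * c l * w k l
      ≤ ∑ k, ∑ l, (c k ^ 2 * w k l + c l ^ 2 * w l k) / 2 :=
        Finset.sum_le_sum fun k _ => Finset.sum_le_sum fun l _ => h2 k l
    _ = ∑ k, ∑ l, c k ^ 2 * w k l := by
        have e : ∀ k l, (c k ^ 2 * w k l + c l ^ 2 * w l k) / 2 =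
            (c k ^ 2 * w k l) / 2 + (c l ^ 2 * w l k) / 2 := fun k l => by ring
        simp only [e, Finset.sum_add_distrib]
        rw [Finset.sum_comm (f := fun k l => (c l ^ 2 * w l k) / 2), ← Finset.sum_add_distrib]
        refine Finset.sum_congr rfl fun k _ => ?_
        rw [← Finset.sum_add_distrib]
        exact Finset.sum_congr rfl fun l _ => by ring
    _ = ∑ k, c k ^ 2 * ∑ l, w k l := by simp only [Finset.mul_sum]
    _ ≤ ∑ k, c k ^ 2 * A k := Finset.sum_le_sum fun k _ =>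
        mul_le_mul_of_nonneg_left (h1 k) (sq_nonneg _)

theorem hw_nonneg (s t : ℝ) : 0 ≤ hw s t := by
  unfold hw
  split_ifs <;> norm_num

theorem hw_symm (s t : ℝ) : hw s t = hw t s := by
  unfold hw
  simp only [eq_comm (a := s) (b := t), add_comm s t]

/-- the rows of the matrix of the heights -/
theorem hw_row {P : ι → ι → Prop} (hsym : ∀ k l, P k l → P l k)
    (htr : ∀ k l m, P k l → P l m → P k m) {τ : ι → ℝ}
    (hd : ∀ k l, k ≠ l → ¬ (P k l ∧ τ k = τ l)) (k : ι) :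
    ∑ l, hw (τ k) (τ l) * (if P k l then 1 else 0) ≤ 1 := by
  have e : ∀ l, hw (τ k) (τ l) * (if P k l then 1 else 0) =
      (if P k l ∧ τ k = τ l then (1 / 2 : ℝ) else 0) +
      (if P k l ∧ τ k + τ l = 0 then 1 / 2 else 0) := by
    intro l
    unfold hw
    by_cases h : P k l
    · simp [h]
    · simp [h]
  simp only [e, Finset.sum_add_distrib]
  have h1 : ∑ l, (if P k l ∧ τ k = τ l then (1 / 2 : ℝ) else 0) ≤ 1 / 2 := by
    rw [← Finset.sum_filter, Finset.sum_const, nsmul_eq_mul]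
    have : (Finset.univ.filter fun l => P k l ∧ τ k = τ l).card ≤ 1 := by
      refine (Finset.card_le_card (t := {k}) fun l hl => ?_).trans (Finset.card_singleton k).le
      rw [Finset.mem_filter] at hl
      rw [Finset.mem_singleton]
      by_contra h
      exact hd k l (Ne.symm h) hl.2
    have h3 : ((Finset.univ.filter fun l => P k l ∧ τ k = τ l).card : ℝ) ≤ 1 := by
      exact_mod_cast this
    linarith
  have h2 : ∑ l, (if P k l ∧ τ k + τ l = 0 then (1 / 2 : ℝ) else 0) ≤ 1 / 2 := by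
    rw [← Finset.sum_filter, Finset.sum_const, nsmul_eq_mul]
    have : (Finset.univ.filter fun l => P k l ∧ τ k + τ l = 0).card ≤ 1 := by
      rw [Finset.card_le_one]
      intro l hl m hm
      rw [Finset.mem_filter] at hl hm
      by_contra h
      refine hd l m h ⟨htr l k m (hsym k l hl.2.1) hm.2.1, ?_⟩
      linarith [hl.2.2, hm.2.2]
    have h3 : ((Finset.univ.filter fun l => P k l ∧ τ k + τ l = 0).card : ℝ) ≤ 1 := by
      exact_mod_cast this
    linarith
  linarith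

/-- from all linear combinations to the sum of the squares -/
theorem sum_div_le {e W : ι → ℝ} (hW : ∀ k, 0 ≤ W k)
    (h : ∀ c : ι → ℝ, (∑ k, c k * e k) ^ 2 ≤ ∑ k, c k ^ 2 * W k) :
    (∀ k, W k = 0 → e k = 0) ∧ ∑ k, e k ^ 2 / W k ≤ 1 := by
  constructor
  · intro k hk
    have h1 := h (fun j => if j = k then 1 else 0)
    simp only [ite_mul, one_mul, zero_mul, ite_pow, one_pow, ne_eq, OfNat.ofNat_ne_zero,
      not_false_eq_true, zero_pow, Finset.sum_ite_eq', Finset.mem_univ, if_true, hk] at h1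
    have h2 : e k ^ 2 = 0 := le_antisymm h1 (sq_nonneg _)
    exact pow_eq_zero_iff two_ne_zero |>.1 h2
  · have h1 := h (fun k => e k / W k)
    have e1 : ∑ k, e k / W k * e k = ∑ k, e k ^ 2 / W k :=
      Finset.sum_congr rfl fun k _ => by ring
    have e2 : ∑ k, (e k / W k) ^ 2 * W k = ∑ k, e k ^ 2 / W k := by
      refine Finset.sum_congr rfl fun k _ => ?_
      rcases eq_or_ne (W k) 0 with h0 | h0
      · rw [h0]
        simp
      · field_simp
    rw [e1, e2] at h1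
    by_contra hcon
    nlinarith [not_le.1 hcon]

end

end Pool.Agent.V7H83.BO
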