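import Pool.Agent.V7H83.BO.A

/-! The quadratic characters of a number field and the numbers of fixed embeddings. -/

set_option autoImplicit false
set_option linter.unusedSectionVars false
open Classical

namespace Pool.Agent.V7H83.BO

open Complex Filter Topology ComplexConjugate NumberField IsDedekindDomain Asymptotics
  Pool.Agent.W401.Cheb Pool.Agent.W540.BE Pool.Agent.W353.L1 Pool.Agent.W353.NF
open Pool.Agent.TH322.BC Pool.Agent.X288.L2

section
variable {K : Type} [Field K] [NumberField K]

/-- the embedding of `K` -/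
noncomputable def i0 (K : Type) [Field K] : K →ₐ[K] AlgebraicClosure K := Algebra.ofId K _

theorem act_i0 (g : GK K) : act K K g (i0 K) = i0 K := Subsingleton.elim _ _

/-- the embedding on elements -/
noncomputable def em (D : K) : AlgebraicClosure K := algebraMap K (AlgebraicClosure K) D

theorem i0_em (D : K) : i0 K D = em D := rfl

theorem em_mul (D D' : K) : em (D * D') = em D * em D' := map_mul _ _ _

theorem em_one : em (1 : K) = 1 := map_one _

theorem em_ne {D : K} (h : D ≠ 0) : em D ≠ 0 := by
  unfold em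
  exact (map_ne_zero _).2 h

theorem em_inj {D D' : K} (h : em D = em D') : D = D' :=
  (algebraMap K (AlgebraicClosure K)).injective h

/-- the quadratic character, as a unit -/
noncomputable def qu (D : K) (g : GK K) : ℤˣ := sg D g (i0 K)

/-- the quadratic character, as a real number -/
noncomputable def qc (D : K) (g : GK K) : ℝ := ((qu D g : ℤ) : ℝ)

theorem exists_root (D : K) : ∃ s : AlgebraicClosure K, s ^ 2 = em D :=
  IsAlgClosed.exists_pow_nat_eq _ (n := 2) (by norm_num)

theorem qu_spec {D : K} {g : GK K} {s : AlgebraicClosure K} (hs : s ^ 2 = em D) :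
    g s = ((qu D g : ℤˣ) : ℤ) * s :=
  sg_spec (act_i0 g) (by rw [i0_em]; exact hs)

theorem qu_unique {D : K} (hD : D ≠ 0) {g : GK K} {s : AlgebraicClosure K} (hs : s ^ 2 = em D)
    {u : ℤˣ} (h : g s = ((u : ℤˣ) : ℤ) * s) : qu D g = u :=
  sg_unique hD (act_i0 g) (by rw [i0_em]; exact hs) h

theorem qu_mul {D : K} (hD : D ≠ 0) (g h : GK K) : qu D (g * h) = qu D g * qu D h := by
  obtain ⟨s, hs⟩ := exists_root D
  refine qu_unique hD hs ?_
  change g (h s) = _
  rw [qu_spec hs, map_mul, map_intCast, qu_spec (g := g) hs]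
  push_cast
  ring

theorem qu_one {D : K} (hD : D ≠ 0) : qu D (1 : GK K) = 1 := by
  obtain ⟨s, hs⟩ := exists_root D
  refine qu_unique hD hs ?_
  simp

theorem qu_inv {D : K} (hD : D ≠ 0) (g : GK K) : qu D g⁻¹ = qu D g := by
  have h1 := qu_mul hD g g⁻¹
  rw [mul_inv_cancel, qu_one hD] at h1
  have h2 : qu D g * qu D g = 1 := Int.units_mul_self _
  calc qu D g⁻¹ = (qu D g * qu D g) * qu D g⁻¹ := by rw [h2, one_mul]
    _ = qu D g * (qu D g * qu D g⁻¹) := by rw [mul_assoc]
    _ = qu D g := by rw [← h1, mul_one]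

theorem qu_conj {D : K} (hD : D ≠ 0) (g ρ : GK K) : qu D (ρ * g * ρ⁻¹) = qu D g := by
  rw [qu_mul hD, qu_mul hD, qu_inv hD, mul_comm (qu D ρ), mul_assoc, Int.units_mul_self, mul_one]

theorem qc_sq (D : K) (g : GK K) : qc D g ^ 2 = 1 := by
  unfold qc
  rcases Int.units_eq_one_or (qu D g) with h | h <;> rw [h] <;> simp

theorem qc_mul {D : K} (hD : D ≠ 0) (g h : GK K) : qc D (g * h) = qc D g * qc D h := by
  unfold qc
  rw [qu_mul hD]
  push_cast
  rfl

section
variable {F : Type} [Field F] [NumberField F] [Algebra K F]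

/-- the signed number of fixed embeddings for an element of `K` -/
theorem chi_base {D : K} (hD : D ≠ 0) (g : GK K) :
    (chi K (algebraMap K F D) g : ℝ) = fixn K F g * qc D g := by
  obtain ⟨s, hs⟩ := exists_root D
  have hDF : algebraMap K F D ≠ 0 := (map_ne_zero _).2 hD
  have h1 : ∀ i : F →ₐ[K] AlgebraicClosure K, act K F g i = i → sg (algebraMap K F D) g i = qu D g := by
    intro i hi
    exact sg_unique hDF hi (by rw [AlgHom.commutes]; exact hs) (qu_spec hs)
  have h2 : chi K (algebraMap K F D) g = fixn K F g * (qu D g : ℤ) := by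
    unfold chi fixn
    rw [Finset.sum_congr rfl (g := fun _ => ((qu D g : ℤˣ) : ℤ)) (fun i hi => by
      rw [h1 i (Finset.mem_filter.1 hi).2]), Finset.sum_const, nsmul_eq_mul,
      Nat.card_eq_fintype_card, Fintype.card_subtype]
  rw [h2]
  unfold qc
  push_cast
  rfl

end

/-- an automorphism which moves a square root -/
theorem exists_move {D : K} {M : IntermediateField K (AlgebraicClosure K)}
    (h : ¬ ∃ x ∈ M, x ^ 2 = em D) :
    ∃ g : GK K, (∀ x ∈ M, g x = x) ∧ qu D g = -1 := by
  obtain ⟨s, hs⟩ := exists_root D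
  have hsM : s ∉ M := fun hs' => h ⟨s, hs', hs⟩
  have h1 : ∃ g ∈ M.fixingSubgroup, g s ≠ s := by
    by_contra hcon
    push Not at hcon
    have h2 : s ∈ IntermediateField.fixedField M.fixingSubgroup := by
      rw [IntermediateField.mem_fixedField_iff]
      exact hcon
    rw [InfiniteGalois.fixedField_fixingSubgroup] at h2
    exact hsM h2
  obtain ⟨g, hg, hgs⟩ := h1
  refine ⟨g, fun x hx => ?_, ?_⟩
  · rw [IntermediateField.mem_fixingSubgroup_iff] at hg
    exact hg x hx
  · rcases Int.units_eq_one_or (qu D g) with h2 | h2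
    · exfalso
      apply hgs
      have h3 : g s = ((qu D g : ℤˣ) : ℤ) * s := qu_spec hs
      rw [h3, h2]
      simp
    · exact h2

end

end Pool.Agent.V7H83.BO
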