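import Pool.Agent.V7H83.BO.B

/-! The mean values for families of fields and quadratic characters. -/

set_option autoImplicit false
set_option linter.unusedSectionVars false
open Classical

namespace Pool.Agent.V7H83.BO

open Complex Filter Topology ComplexConjugate NumberField IsDedekindDomain Asymptotics
  Pool.Agent.W401.Cheb Pool.Agent.W540.BE Pool.Agent.W353.L1 Pool.Agent.W353.NF
open Pool.Agent.TH322.BC Pool.Agent.X288.L2

/-- the character of the difference of the base change and of the curve itself -/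
noncomputable def ps {K : Type} [Field K] [NumberField K] (F : Type) [Field F] [NumberField F]
    [Algebra K F] (D : K) (g : GK K) : ℝ :=
  qc D g * ((fixn K F g : ℝ) - 1)

section
variable {K : Type} [Field K] [NumberField K] {U : Subgroup (GK K)}

theorem cls_qc {D : K} (hD : D ≠ 0) (h : ∀ u ∈ U, qu D u = 1) : Cls U (qc D) where
  hU σ u hu := by
    rw [qc_mul hD]
    have : qc D u = 1 := by unfold qc; rw [h u hu]; simp
    rw [this, mul_one]
  hc σ ρ := by unfold qc; rw [qu_conj hD]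
  hi σ := by unfold qc; rw [qu_inv hD]

theorem cls_fix {F : Type} [Field F] [NumberField F] [Algebra K F]
    (h : ∀ u ∈ U, act K F u = 1) : Cls U (fun g => (fixn K F g : ℝ) - 1) where
  hU σ u hu := by rw [fixn_mul_ker K F σ u (h u hu)]
  hc σ ρ := by rw [fixn_conj]
  hi σ := by rw [fixn_inv]

theorem cls_ps {F : Type} [Field F] [NumberField F] [Algebra K F] {D : K} (hD : D ≠ 0)
    (h : ∀ u ∈ U, act K F u = 1) (h' : ∀ u ∈ U, qu D u = 1) : Cls U (ps F D) :=
  (cls_qc hD h').mul (cls_fix h)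

/-- a function which changes its sign under a translation has mean zero -/
theorem mean_zero [U.Normal] [Finite (GK K ⧸ U)] {f : GK K → ℝ} (hf : ∀ g, ∀ u ∈ U, f (g * u) = f g)
    {g₀ : GK K} (h : ∀ g, f (g * g₀) = -f g) : (avR U fun q => f q.out) = 0 := by
  have h1 := avR_mul U hf g₀
  have h2 : (fun q : GK K ⧸ U => f (q.out * g₀)) = fun q => (-1) * f q.out := by
    funext q
    rw [h]
    ring
  rw [h2, avR_const_mul] at h1
  linarith

end

section
variable {K : Type} [Field K] [NumberField K] {ι : Type} [Fintype ι] {F : ι → Type} [∀ k, Field (F k)] [∀ k, NumberField (F k)]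
  [∀ k, Algebra K (F k)]

/-- an open normal subgroup acting trivially on everything -/
noncomputable def UU (K : Type) [Field K] [NumberField K] (F : ι → Type) [∀ k, Field (F k)]
    [∀ k, NumberField (F k)] [∀ k, Algebra K (F k)] (D : ι → K) : Subgroup (GK K) :=
  ⨅ k, kerD K (algebraMap K (F k) (D k))

omit [Fintype ι] in
instance UU_normal (D : ι → K) : (UU K F D).Normal :=
  Subgroup.normal_iInf_normal fun _ => kerD_normal _

theorem UU_open (D : ι → K) : IsOpen (UU K F D : Set (GK K)) := by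
  unfold UU
  rw [Subgroup.coe_iInf]
  exact isOpen_iInter_of_finite fun k => kerD_open _

instance UU_fin (D : ι → K) : Finite (GK K ⧸ UU K F D) :=
  Subgroup.quotient_finite_of_isOpen _ (UU_open D)

omit [Fintype ι] in
theorem UU_le (D : ι → K) (k : ι) : UU K F D ≤ (act K (F k)).ker :=
  (iInf_le _ k).trans (kerD_le _)

omit [Fintype ι] in
theorem UU_act {D : ι → K} {u : GK K} (hu : u ∈ UU K F D) (k : ι) : act K (F k) u = 1 :=
  UU_le D k hu

omit [Fintype ι] in
theorem UU_qu {D : ι → K} (hD : ∀ k, D k ≠ 0) {u : GK K} (hu : u ∈ UU K F D) (k : ι) :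
    qu (D k) u = 1 := by
  have h1 : u ∈ kerD K (algebraMap K (F k) (D k)) :=
    (iInf_le (fun k => kerD K (algebraMap K (F k) (D k))) k) hu
  obtain ⟨s, hs⟩ := exists_root (D k)
  have hi : Nonempty (F k →ₐ[K] AlgebraicClosure K) := ⟨IsAlgClosed.lift⟩
  obtain ⟨i⟩ := hi
  have h2 := h1.2 i s (by rw [AlgHom.commutes]; exact hs)
  exact qu_unique (hD k) hs (by rw [h2]; simp)

end

section
variable {K : Type} [Field K] [NumberField K] {F : Type} [Field F] [NumberField F] [Algebra K F]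

theorem fixn_le_finrank (g : GK K) : (fixn K F g : ℝ) ≤ Module.finrank K F := by
  have e : Fintype.card (F →ₐ[K] AlgebraicClosure K) = Module.finrank K F :=
    AlgHom.card K F (AlgebraicClosure K)
  have e2 : fixn K F g ≤ Fintype.card (F →ₐ[K] AlgebraicClosure K) := by
    unfold fixn
    rw [Nat.card_eq_fintype_card]
    exact Fintype.card_subtype_le _
  rw [e] at e2
  exact_mod_cast e2

/-- the bound for the number of fixed embeddings -/
theorem fix_sub_sq (g : GK K) :
    ((fixn K F g : ℝ) - 1) ^ 2 ≤ ((Module.finrank K F : ℝ) - 1) ^ 2 := by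
  have h1 : (fixn K F g : ℝ) ≤ Module.finrank K F := fixn_le_finrank g
  have h0 : (0 : ℝ) ≤ fixn K F g := Nat.cast_nonneg _
  have hpos : 0 < Module.finrank K F := Module.finrank_pos
  rcases Nat.lt_or_ge 1 (Module.finrank K F) with h | h
  · have h2 : (2 : ℝ) ≤ Module.finrank K F := by exact_mod_cast h
    nlinarith
  · have hn : Module.finrank K F = 1 := by omega
    have hc : Fintype.card (F →ₐ[K] AlgebraicClosure K) = 1 := by
      rw [AlgHom.card K F (AlgebraicClosure K), hn]
    have hs : Subsingleton (F →ₐ[K] AlgebraicClosure K) :=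
      Fintype.card_le_one_iff_subsingleton.1 hc.le
    have h2 : fixn K F g = 1 := by
      unfold fixn
      rw [Nat.card_congr (Equiv.subtypeUnivEquiv fun i => Subsingleton.elim _ _),
        Nat.card_eq_fintype_card, hc]
    rw [h2, hn]

/-- an automorphism fixing the closure of `F` acts trivially on the embeddings -/
theorem act_of_closure {g : GK K}
    (h : ∀ x ∈ Pool.Agent.W353.EF.closure K F, g x = x) : act K F g = 1 := by
  refine Equiv.ext fun i => AlgHom.ext fun x => ?_
  change g (i x) = i x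
  refine h _ ?_
  unfold Pool.Agent.W353.EF.closure
  exact (le_iSup (fun i : F →ₐ[K] AlgebraicClosure K => i.fieldRange) i) ⟨x, rfl⟩

end

section
variable {K : Type} [Field K] [NumberField K] {F₁ F₂ : Type} [Field F₁] [NumberField F₁]
  [Algebra K F₁] [Field F₂] [NumberField F₂] [Algebra K F₂]

/-- the Galois group acts transitively on the pairs of embeddings of `F₁` and of `F₂` (the tensor
product of the two fields is a field) -/
def JointTrans (K F₁ F₂ : Type) [Field K] [Field F₁] [Field F₂] [Algebra K F₁] [Algebra K F₂] :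
    Prop :=
  ∀ (i i' : F₁ →ₐ[K] AlgebraicClosure K) (j j' : F₂ →ₐ[K] AlgebraicClosure K),
    ∃ g : Gal(AlgebraicClosure K/K), Pool.Agent.W353.EF.perm K F₁ g i = i' ∧
      Pool.Agent.W353.EF.perm K F₂ g j = j'

/-- the action on pairs -/
def prodAct (Y₁ Y₂ : Type*) : Equiv.Perm Y₁ × Equiv.Perm Y₂ →* Equiv.Perm (Y₁ × Y₂) where
  toFun π := Equiv.prodCongr π.1 π.2
  map_one' := rfl
  map_mul' _ _ := rfl

/-- the mean value of the product of the numbers of fixed embeddings -/
theorem mean_fix_mul (h : JointTrans K F₁ F₂) {U : Subgroup (GK K)} [Finite (GK K ⧸ U)]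
    (h1 : ∀ u ∈ U, act K F₁ u = 1) (h2 : ∀ u ∈ U, act K F₂ u = 1) :
    (avR U fun q => (fixn K F₁ q.out : ℝ) * (fixn K F₂ q.out : ℝ)) = 1 := by
  set Φ := (act K F₁).prod (act K F₂) with hΦ
  have hUΦ : U ≤ Φ.ker := by
    intro u hu
    rw [MonoidHom.mem_ker, hΦ, MonoidHom.prod_apply, h1 u hu, h2 u hu]
    rfl
  have hfinV : Finite (GK K ⧸ Φ.ker) := by
    have e := QuotientGroup.quotientKerEquivRange Φ
    exact Finite.of_equiv _ e.symm.toEquiv
  have e0 := avR_mono hUΦ (f := fun g => (fixn K F₁ g : ℝ) * (fixn K F₂ g : ℝ)) (fun g u hu => by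
    rw [MonoidHom.mem_ker, hΦ, MonoidHom.prod_apply] at hu
    have hu1 : act K F₁ u = 1 := congrArg Prod.fst hu
    have hu2 : act K F₂ u = 1 := congrArg Prod.snd hu
    rw [fixn_mul_ker K F₁ g u hu1, fixn_mul_ker K F₂ g u hu2])
  rw [e0]
  have g1 := avR_ker Φ fun π => ((Nat.card {y // prodAct _ _ π y = y} : ℕ) : ℝ)
  have g2 : (fun q : GK K ⧸ Φ.ker => (fixn K F₁ q.out : ℝ) * (fixn K F₂ q.out : ℝ)) = fun q =>
      ((Nat.card {y // prodAct _ _ (Φ q.out) y = y} : ℕ) : ℝ) := by
    funext q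
    unfold fixn
    rw [← Nat.cast_mul, ← Nat.card_prod]
    congr 1
    refine Nat.card_congr
      { toFun := fun p => ⟨(p.1.1, p.2.1), Prod.ext p.1.2 p.2.2⟩
        invFun := fun z => (⟨z.1.1, congrArg Prod.fst z.2⟩, ⟨z.1.2, congrArg Prod.snd z.2⟩)
        left_inv := fun p => rfl
        right_inv := fun z => rfl }
  rw [g2, g1]
  have hne1 : Nonempty (F₁ →ₐ[K] AlgebraicClosure K) := ⟨IsAlgClosed.lift⟩
  have hne2 : Nonempty (F₂ →ₐ[K] AlgebraicClosure K) := ⟨IsAlgClosed.lift⟩
  have g3 := burnside (G := Φ.range)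
    (Y := (F₁ →ₐ[K] AlgebraicClosure K) × (F₂ →ₐ[K] AlgebraicClosure K))
    ((prodAct _ _).comp Φ.range.subtype) (fun x y => by
      obtain ⟨σ, hσ, hσ'⟩ := h x.1 y.1 x.2 y.2
      exact ⟨⟨Φ σ, ⟨σ, rfl⟩⟩, Prod.ext hσ hσ'⟩)
  have g4 : ∑ᶠ (h : Φ.range), ((Nat.card {y // prodAct _ _ h.1 y = y} : ℕ) : ℝ) =
      Nat.card Φ.range := g3
  rw [g4]
  exact inv_mul_cancel₀ (by exact_mod_cast Nat.card_pos.ne')

/-- the mean number of fixed embeddings, for a smaller subgroup -/
theorem mean_fix_U {U : Subgroup (GK K)} [Finite (GK K ⧸ U)]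
    (h1 : ∀ u ∈ U, act K F₁ u = 1) : (avR U fun q => (fixn K F₁ q.out : ℝ)) = 1 := by
  have hfinV : Finite (GK K ⧸ (act K F₁).ker) :=
    Subgroup.quotient_finite_of_isOpen _ (ker_act_open K F₁)
  have hU : U ≤ (act K F₁).ker := fun u hu => h1 u hu
  rw [avR_mono hU (f := fun g => (fixn K F₁ g : ℝ)) (fun g u hu => by
    rw [fixn_mul_ker K F₁ g u hu])]
  exact mean_fix

theorem mean_sub_mul (h : JointTrans K F₁ F₂) {U : Subgroup (GK K)} [Finite (GK K ⧸ U)]
    (h1 : ∀ u ∈ U, act K F₁ u = 1) (h2 : ∀ u ∈ U, act K F₂ u = 1) :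
    (avR U fun q => ((fixn K F₁ q.out : ℝ) - 1) * ((fixn K F₂ q.out : ℝ) - 1)) = 0 := by
  have e : (fun q : GK K ⧸ U => ((fixn K F₁ q.out : ℝ) - 1) * ((fixn K F₂ q.out : ℝ) - 1)) =
      fun q => (fixn K F₁ q.out : ℝ) * (fixn K F₂ q.out : ℝ) + ((-1) * (fixn K F₁ q.out : ℝ) +
        ((-1) * (fixn K F₂ q.out : ℝ) + 1)) := by
    funext q
    ring
  rw [e, avR_add, avR_add, avR_add, avR_const_mul,
    avR_const_mul, mean_fix_mul h h1 h2, mean_fix_U h1, mean_fix_U h2, avR_one]
  norm_num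

theorem mean_sub_sq {U : Subgroup (GK K)} [Finite (GK K ⧸ U)]
    (h1 : ∀ u ∈ U, act K F₁ u = 1) :
    (avR U fun q => ((fixn K F₁ q.out : ℝ) - 1) ^ 2) = pairOrbits K F₁ - 1 := by
  have hfinV : Finite (GK K ⧸ (act K F₁).ker) :=
    Subgroup.quotient_finite_of_isOpen _ (ker_act_open K F₁)
  have hU : U ≤ (act K F₁).ker := fun u hu => h1 u hu
  rw [avR_mono hU (f := fun g => ((fixn K F₁ g : ℝ) - 1) ^ 2) (fun g u hu => by
    rw [fixn_mul_ker K F₁ g u hu])]
  exact mean_fix_sub_sq

end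

end Pool.Agent.V7H83.BO
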