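import Pool.Agent.V7H83.BO.C

/-! The bounds for the means. -/

set_option autoImplicit false
set_option linter.unusedSectionVars false
open Classical

namespace Pool.Agent.V7H83.BO

open Complex Filter Topology ComplexConjugate NumberField IsDedekindDomain Asymptotics
  Pool.Agent.W401.Cheb Pool.Agent.W540.BE Pool.Agent.W353.L1 Pool.Agent.W353.NF
open Pool.Agent.TH322.BC Pool.Agent.X288.L2

section
variable {K : Type} [Field K] [NumberField K]

theorem qu_prod {D D' : K} (hD : D ≠ 0) (hD' : D' ≠ 0) (g : GK K) :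
    qu (D * D') g = qu D g * qu D' g := by
  obtain ⟨s, hs⟩ := exists_root D
  obtain ⟨t, ht⟩ := exists_root D'
  have h1 : (s * t) ^ 2 = em (D * D') := by
    rw [mul_pow, hs, ht, em_mul]
  refine qu_unique (mul_ne_zero hD hD') h1 ?_
  rw [map_mul, qu_spec hs, qu_spec ht]
  push_cast
  ring

theorem qu_int_one (g : GK K) : qu (1 : K) g = 1 := by
  refine qu_unique one_ne_zero (s := 1) (by rw [one_pow, em_one]) ?_
  simp

theorem qc_one (g : GK K) : qc (1 : K) g = 1 := by
  unfold qc
  rw [qu_int_one]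
  simp

theorem ps_one (F : Type) [Field F] [NumberField F] [Algebra K F] (g : GK K) :
    ps F 1 g = (fixn K F g : ℝ) - 1 := by
  unfold ps
  rw [qc_one, one_mul]

/-- if the product is not a square, some automorphism separates the characters -/
theorem exists_sep {D D' : K} (hD : D ≠ 0) (hD' : D' ≠ 0) (h : ¬ IsSquare (D * D')) :
    ∃ g : GK K, qu D g * qu D' g = -1 := by
  have h1 : ¬ ∃ x ∈ (⊥ : IntermediateField K (AlgebraicClosure K)), x ^ 2 = em (D * D') := by
    rintro ⟨x, hx, hx2⟩
    rw [IntermediateField.mem_bot] at hx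
    obtain ⟨q, hq⟩ := hx
    apply h
    refine ⟨q, ?_⟩
    have h2 : em (q ^ 2) = em (D * D') := by
      rw [← hx2, ← hq]
      exact map_pow _ _ _
    rw [← em_inj h2, sq]
  obtain ⟨g, -, hg⟩ := exists_move h1
  exact ⟨g, by rw [← qu_prod hD hD', hg]⟩

/-- a closure without the square root -/
theorem exists_sep_closure {F : Type} [Field F] [NumberField F] [Algebra K F] {D D' : K}
    (hD : D ≠ 0) (hD' : D' ≠ 0)
    (h : ¬ ∃ x ∈ Pool.Agent.W353.EF.closure K F, x ^ 2 = em (D * D')) :
    ∃ g : GK K, qu D g * qu D' g = -1 ∧ act K F g = 1 := by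
  obtain ⟨g, hg1, hg⟩ := exists_move h
  exact ⟨g, by rw [← qu_prod hD hD', hg], act_of_closure hg1⟩

/-- the same character -/
def Same (K : Type) [Field K] [NumberField K] {ι : Type} (D : ι → K) (k l : ι) : Prop :=
  ∀ g : GK K, qu (D k) g = qu (D l) g

/-- if the characters are different, some automorphism separates them -/
theorem not_same {ι : Type} {D : ι → K} {k l : ι} (h : ¬ Same K D k l) :
    ∃ g : GK K, qu (D k) g * qu (D l) g = -1 := by
  unfold Same at h
  push Not at h
  obtain ⟨g, hg⟩ := h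
  refine ⟨g, ?_⟩
  rcases Int.units_eq_one_or (qu (D k) g) with a | a <;>
    rcases Int.units_eq_one_or (qu (D l) g) with b | b <;> rw [a, b] at hg ⊢ <;> simp at hg ⊢

theorem same_square {ι : Type} {D : ι → K} (hD : ∀ k, D k ≠ 0) {k l : ι} (h : Same K D k l) :
    IsSquare (D k * D l) := by
  by_contra hs
  obtain ⟨g, hg⟩ := exists_sep (hD k) (hD l) hs
  rw [h g, Int.units_mul_self] at hg
  exact absurd hg (by decide)

theorem avR_congr {U : Subgroup (GK K)} {f g : GK K ⧸ U → ℝ} (h : ∀ q, f q = g q) :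
    avR U f = avR U g := by
  have : f = g := funext h
  rw [this]

theorem qc_mul_self_of_same {ι : Type} {D : ι → K} {k l : ι} (h : Same K D k l) (g : GK K) :
    qc (D k) g * qc (D l) g = 1 := by
  have h1 : qc (D k) g = qc (D l) g := by unfold qc; rw [h g]
  rw [h1, ← sq, qc_sq]

theorem qc_of_sep {D D' : K} {g : GK K} (h : qu D g * qu D' g = -1) : qc D g * qc D' g = -1 := by
  unfold qc
  have : ((qu D g * qu D' g : ℤˣ) : ℤ) = -1 := by rw [h]; rfl
  have h2 : ((qu D g : ℤ)) * (qu D' g : ℤ) = -1 := by rw [← this]; push_cast; rfl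
  exact_mod_cast h2

theorem abs_qc_mul (D D' : K) (g : GK K) : |qc D g * qc D' g| = 1 := by
  have h1 : (qc D g * qc D' g) ^ 2 = 1 := by rw [mul_pow, qc_sq, qc_sq, one_mul]
  have h2 : |qc D g * qc D' g| ^ 2 = 1 := by rw [sq_abs, h1]
  exact (pow_eq_one_iff_of_nonneg (abs_nonneg _) two_ne_zero).1 h2

end

section
variable {K : Type} [Field K] [NumberField K] {U : Subgroup (GK K)} [U.Normal] [Finite (GK K ⧸ U)] {ι : Type} {D : ι → K}

/-- the mean of the product of two characters -/
theorem mean_qc (hD : ∀ k, D k ≠ 0) (hU : ∀ k, ∀ u ∈ U, qu (D k) u = 1) (k l : ι) :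
    (avR U fun q => qc (D k) q.out * qc (D l) q.out) = if Same K D k l then 1 else 0 := by
  split_ifs with h
  · rw [avR_congr fun q => qc_mul_self_of_same h _, avR_one]
  · obtain ⟨g, hg⟩ := not_same h
    have hg' := qc_of_sep hg
    refine mean_zero (f := fun g => qc (D k) g * qc (D l) g) (g₀ := g)
      ((cls_qc (hD k) (hU k)).mul (cls_qc (hD l) (hU l))).hU fun x => ?_
    rw [qc_mul (hD k), qc_mul (hD l)]
    calc qc (D k) x * qc (D k) g * (qc (D l) x * qc (D l) g) =
          qc (D k) x * qc (D l) x * (qc (D k) g * qc (D l) g) := by ring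
      _ = _ := by rw [hg']; ring

/-- `D k` and `D l` have a quotient with a square root in the Galois closure of `F` -/
def Close (K F : Type) [Field K] [Field F] [Algebra K F] {ι : Type} (D : ι → K) (k l : ι) : Prop :=
  ∃ x ∈ Pool.Agent.W353.EF.closure K F, x ^ 2 = algebraMap K (AlgebraicClosure K) (D k * D l)

/-- the mean of the product of two differences, for one field -/
theorem mean_ps_zero {F : Type} [Field F] [NumberField F] [Algebra K F] (hD : ∀ k, D k ≠ 0)
    (hU : ∀ k, ∀ u ∈ U, qu (D k) u = 1) (hU' : ∀ u ∈ U, act K F u = 1) {k l : ι}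
    (h : ¬ Close K F D k l) :
    (avR U fun q => ps F (D k) q.out * ps F (D l) q.out) = 0 := by
  obtain ⟨g, hg, hg2⟩ := exists_sep_closure (F := F) (hD k) (hD l) h
  have hg' := qc_of_sep hg
  refine mean_zero (f := fun g => ps F (D k) g * ps F (D l) g) (g₀ := g)
    ((cls_ps (hD k) hU' (hU k)).mul (cls_ps (hD l) hU' (hU l))).hU fun x => ?_
  unfold ps
  rw [qc_mul (hD k), qc_mul (hD l), fixn_mul_ker K F x g hg2]
  calc qc (D k) x * qc (D k) g * ((fixn K F x : ℝ) - 1) * (qc (D l) x * qc (D l) g *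
        ((fixn K F x : ℝ) - 1)) = qc (D k) x * ((fixn K F x : ℝ) - 1) * (qc (D l) x *
        ((fixn K F x : ℝ) - 1)) * (qc (D k) g * qc (D l) g) := by ring
    _ = _ := by rw [hg']; ring

theorem mean_ps_le {F : Type} [Field F] [NumberField F] [Algebra K F]
    (hU' : ∀ u ∈ U, act K F u = 1) (k l : ι) :
    |avR U fun q => ps F (D k) q.out * ps F (D l) q.out| ≤ (pairOrbits K F : ℝ) - 1 := by
  rw [← mean_sub_sq hU', abs_le]
  constructor
  · have h1 := avR_mono_le U (f := fun q : GK K ⧸ U => (-1) * ((fixn K F q.out : ℝ) - 1) ^ 2)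
      (g := fun q => ps F (D k) q.out * ps F (D l) q.out) fun q => by
        have h2 := abs_le.1 (abs_qc_mul (D k) (D l) q.out).le
        unfold ps
        nlinarith [sq_nonneg ((fixn K F q.out : ℝ) - 1),
          mul_nonneg (by linarith [h2.1] : 0 ≤ qc (D k) q.out * qc (D l) q.out + 1)
            (sq_nonneg ((fixn K F q.out : ℝ) - 1))]
    rw [avR_const_mul] at h1
    linarith
  · refine avR_mono_le U (f := fun q => ps F (D k) q.out * ps F (D l) q.out)
      (g := fun q : GK K ⧸ U => ((fixn K F q.out : ℝ) - 1) ^ 2) fun q => ?_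
    have h2 := abs_le.1 (abs_qc_mul (D k) (D l) q.out).le
    unfold ps
    nlinarith [mul_nonneg (by linarith [h2.2] : 0 ≤ 1 - qc (D k) q.out * qc (D l) q.out)
            (sq_nonneg ((fixn K F q.out : ℝ) - 1))]

end

section
variable {K : Type} [Field K] [NumberField K] {ι : Type} [Fintype ι] {D : ι → K} {τ : ι → ℝ}

theorem pairOrbits_pos (K F : Type) [Field K] [NumberField K] [Field F] [NumberField F]
    [Algebra K F] :
    (0 : ℝ) ≤ (pairOrbits K F : ℝ) - 1 := by
  have hfinV : Finite (GK K ⧸ (act K F).ker) :=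
    Subgroup.quotient_finite_of_isOpen _ (ker_act_open K F)
  rw [← mean_sub_sq (F₁ := F) (U := (act K F).ker) (fun u hu => hu)]
  have h1 := avR_mono_le (act K F).ker (f := fun _ => (0 : ℝ))
    (g := fun q : GK K ⧸ (act K F).ker => ((fixn K F q.out : ℝ) - 1) ^ 2) fun q => sq_nonneg _
  rw [avR_one] at h1
  exact h1

/-- the means, all characters -/
theorem gram_qc {F : Type} [Field F] [NumberField F] [Algebra K F] (hD : ∀ k, D k ≠ 0)
    (hd : ∀ k l, k ≠ l → τ k = τ l → ¬ IsSquare (D k * D l)) (c : ι → ℝ) :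
    gramG (UU K (fun _ : ι => F) D) (fun k => qc (D k)) τ c ≤ ∑ k, c k ^ 2 := by
  have e : gramG (UU K (fun _ : ι => F) D) (fun k => qc (D k)) τ c =
      ∑ k, ∑ l, c k * c l * (hw (τ k) (τ l) * (if Same K D k l then 1 else 0)) := by
    unfold gramG
    refine Finset.sum_congr rfl fun k _ => Finset.sum_congr rfl fun l _ => ?_
    rw [mean_qc hD (fun k u hu => UU_qu hD hu k) k l]
  rw [e]
  have h2 := schur (w := fun k l => hw (τ k) (τ l) * (if Same K D k l then 1 else 0))
    (fun k l => mul_nonneg (hw_nonneg _ _) (by split_ifs <;> norm_num))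
    (fun k l => by
      rw [hw_symm]
      congr 1
      have : Same K D k l ↔ Same K D l k := ⟨fun h g => (h g).symm, fun h g => (h g).symm⟩
      simp only [this]) (A := fun _ => 1)
    (fun k => hw_row (P := Same K D) (fun k l h g => (h g).symm)
      (fun k l m h h' g => (h g).trans (h' g))
      (fun k l hkl h => hd k l hkl h.2 (same_square hD h.1)) k) c
  simpa only [mul_one] using h2

/-- the means of the differences, one field, all characters -/
theorem gram_all {F : Type} [Field F] [NumberField F] [Algebra K F] (hD : ∀ k, D k ≠ 0)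
    (hd : ∀ k l, k ≠ l → τ k = τ l → ¬ IsSquare (D k * D l)) (c : ι → ℝ) :
    gramG (UU K (fun _ : ι => F) D) (fun k => ps F (D k)) τ c ≤
      ((Module.finrank K F : ℝ) - 1) ^ 2 * ∑ k, c k ^ 2 := by
  have hU := UU_open (K := K) (F := fun _ : ι => F) D
  have h1 : gramG (UU K (fun _ : ι => F) D) (fun k => ps F (D k)) τ c ≤
      ((Module.finrank K F : ℝ) - 1) ^ 2 *
        gramG (UU K (fun _ : ι => F) D) (fun k => qc (D k)) τ c := by
    refine gram_le hU (fun k => cls_ps (hD k) (fun u hu => UU_act hu k)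
      (fun u hu => UU_qu hD hu k)) (fun k => cls_qc (hD k) (fun u hu => UU_qu hD hu k)) τ c
      fun g x => ?_
    have e : ∑ k, c k * (ps F (D k) g * x k) =
        ((fixn K F g : ℝ) - 1) * ∑ k, c k * (qc (D k) g * x k) := by
      rw [Finset.mul_sum]
      refine Finset.sum_congr rfl fun k _ => ?_
      unfold ps
      ring
    rw [e, mul_pow]
    exact mul_le_mul_of_nonneg_right (fix_sub_sq g) (sq_nonneg _)
  exact h1.trans (mul_le_mul_of_nonneg_left (gram_qc hD hd c) (sq_nonneg _))

/-- Schur's bound without signs -/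
theorem schur_abs {w : ι → ι → ℝ} (hs : ∀ k l, w k l = w l k) {A : ℝ}
    (h1 : ∀ k, ∑ l, |w k l| ≤ A) (c : ι → ℝ) :
    ∑ k, ∑ l, c k * c l * w k l ≤ A * ∑ k, c k ^ 2 := by
  have h2 := schur (w := fun k l => |w k l|) (fun k l => abs_nonneg _) (fun k l => by rw [hs])
    (A := fun _ => A) h1 (fun k => |c k|)
  have h3 : ∑ k, ∑ l, c k * c l * w k l ≤ ∑ k, ∑ l, |c k| * |c l| * |w k l| := by
    refine Finset.sum_le_sum fun k _ => Finset.sum_le_sum fun l _ => ?_
    rw [← abs_mul, ← abs_mul]
    exact le_abs_self _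
  refine h3.trans (h2.trans (le_of_eq ?_))
  rw [Finset.mul_sum]
  refine Finset.sum_congr rfl fun k _ => ?_
  rw [sq_abs, mul_comm]

/-- the means of the differences, one field, in terms of the square roots in the closure -/
theorem gram_close {F : Type} [Field F] [NumberField F] [Algebra K F] (hD : ∀ k, D k ≠ 0)
    {q : ℕ} (hq : ∀ k, ∀ t : ℝ, Nat.card {l // τ l = t ∧ Close K F D k l} ≤ q) (c : ι → ℝ) :
    gramG (UU K (fun _ : ι => F) D) (fun k => ps F (D k)) τ c ≤
      (q * ((pairOrbits K F : ℝ) - 1)) * ∑ k, c k ^ 2 := by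
  have hr := pairOrbits_pos K F
  have hfin : Finite (GK K ⧸ UU K (fun _ : ι => F) D) := UU_fin _
  have hact : ∀ _k : ι, ∀ u ∈ UU K (fun _ : ι => F) D, act K F u = 1 := fun k u hu =>
    UU_act (F := fun _ : ι => F) (D := D) hu k
  have hqq : ∀ k, ∀ u ∈ UU K (fun _ : ι => F) D, qu (D k) u = 1 := fun k u hu =>
    UU_qu (F := fun _ : ι => F) hD hu k
  unfold gramG
  refine schur_abs (fun k l => ?_) (fun k => ?_) c
  · rw [hw_symm]
    congr 1
    exact avR_congr fun q => mul_comm _ _
  · have h1 : ∀ l, |hw (τ k) (τ l) * avR (UU K (fun _ : ι => F) D) fun q =>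
        ps F (D k) q.out * ps F (D l) q.out| ≤ ((pairOrbits K F : ℝ) - 1) *
          ((if τ l = τ k ∧ Close K F D k l then 1 / 2 else 0) +
            (if τ l = -τ k ∧ Close K F D k l then 1 / 2 else 0)) := by
      intro l
      by_cases h : Close K F D k l
      · rw [abs_mul, abs_of_nonneg (hw_nonneg _ _), mul_comm]
        have e : hw (τ k) (τ l) = (if τ l = τ k ∧ Close K F D k l then (1 / 2 : ℝ) else 0) +
            (if τ l = -τ k ∧ Close K F D k l then 1 / 2 else 0) := by
          unfold hw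
          simp only [h, and_true]
          congr 1
          · simp only [eq_comm (a := τ k)]
          · have : τ k + τ l = 0 ↔ τ l = -τ k := ⟨fun h => by linarith, fun h => by linarith⟩
            simp only [this]
        rw [← e]
        exact mul_le_mul_of_nonneg_right (mean_ps_le (hact k) k l) (hw_nonneg _ _)
      · rw [mean_ps_zero hD hqq (hact k) h]
        simp [h]
    refine (Finset.sum_le_sum fun l _ => h1 l).trans ?_
    rw [← Finset.mul_sum, mul_comm (q : ℝ)]
    refine mul_le_mul_of_nonneg_left ?_ hr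
    rw [Finset.sum_add_distrib]
    have h3 : ∀ t : ℝ, ∑ l, (if τ l = t ∧ Close K F D k l then (1 / 2 : ℝ) else 0) ≤ q / 2 := by
      intro t
      rw [← Finset.sum_filter, Finset.sum_const, nsmul_eq_mul]
      have h4 := hq k t
      rw [Nat.card_eq_fintype_card, Fintype.card_subtype] at h4
      have h5 : ((Finset.univ.filter fun l => τ l = t ∧ Close K F D k l).card : ℝ) ≤ q := by
        exact_mod_cast h4
      linarith
    linarith [h3 (τ k), h3 (-τ k)]

end

end Pool.Agent.V7H83.BO
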