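import Pool.Agent.V7H83.BO.D

/-! The sizes of the quadratic twists, and the bounds for the sums of the squares. -/

set_option autoImplicit false
set_option linter.unusedSectionVars false
open Classical

namespace Pool.Agent.V7H83.BO

open Complex Filter Topology ComplexConjugate NumberField IsDedekindDomain Asymptotics
  Pool.Agent.W401.Cheb Pool.Agent.W540.BE Pool.Agent.W353.L1 Pool.Agent.W353.NF
open Pool.Agent.TH322.BC Pool.Agent.X288.L2
open Pool.Agent.W353.AB (Sy syE)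
open Pool.Agent.TH322.BC.Edge (TwistOver MinimalModels LSeries size HasOrder size_twist size_base
  orders)
open Pool.Agent.Y722.EP (IsModular)

/-- `min([K : ℚ], 4)` -/
noncomputable def N4 (K : Type) [Field K] [NumberField K] : ℕ := min (Module.finrank ℚ K) 4

section
variable {K : Type} [Field K] [NumberField K]

/-- the trivial bound for the second moment -/
theorem sec_four {T : Pool.Agent.W353.TP.HX K → ℝ} (hT : ∀ x, |T x| ≤ 2) : Sec T 4 := by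
  obtain ⟨C, hC⟩ := (Pool.Agent.W353.TP.sysH K).lam_bounded
  refine ⟨4 * C, ?_⟩
  filter_upwards [hC, self_mem_nhdsWithin] with ε h1 h2
  have hε : (0 : ℝ) < ε := h2
  have hT2 : ∀ x, |T x ^ 2| ≤ 4 := by
    intro x
    rw [abs_pow]
    calc |T x| ^ 2 ≤ 2 ^ 2 := pow_le_pow_left₀ (abs_nonneg _) (hT x) 2
      _ = 4 := by norm_num
  have h3 := EH_mono hε (φ := fun x => T x ^ 2) (ψ := fun _ => 4) hT2 (B' := 4)
    (fun _ => by norm_num) (fun x => (le_abs_self _).trans (hT2 x))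
  have h4 : (Pool.Agent.W353.TP.sysH K).E ε (fun _ => (4 : ℝ)) =
      4 * (Pool.Agent.W353.TP.sysH K).lam ε := by
    unfold Pool.Agent.H341R2.NormSys.E Pool.Agent.H341R2.NormSys.lam
    rw [tsum_mul_left]
  have h5 : Pool.Agent.W353.TP.LL ε = -Real.log ε := by
    unfold Pool.Agent.W353.TP.LL
    rw [one_div, Real.log_inv]
  have h6 := (abs_le.1 h1).2
  rw [h5]
  refine (h3.trans (le_of_eq h4)).trans ?_
  linarith

/-- the second moment of a modular curve -/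
theorem sec_min {a b : ℤ} (hab : 4 * a ^ 3 + 27 * b ^ 2 ≠ 0) (hmod : IsModular a b) :
    Sec (Pool.Agent.W353.NF.TT (syE (PP K a) (QQ K b))) (N4 K : ℝ) := by
  unfold N4
  rcases le_total (Module.finrank ℚ K) 4 with h | h
  · rw [min_eq_left h]
    exact sec_curve hab hmod
  · rw [min_eq_right h]
    exact_mod_cast sec_four (abs_TT_le a b)

end

section
variable {K : Type} [Field K] [NumberField K]

theorem P_eqK (a b : ℤ) : ((PP K a : 𝓞 K) : K) = (((1 : 𝓞 K)) : K) ^ 4 * (EC K a b).c₄ := by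
  have h1 : ((PP K a : 𝓞 K) : K) = ((-48 * a : ℤ) : K) := by
    unfold PP
    exact map_intCast (algebraMap (𝓞 K) K) _
  have h2 : ((1 : 𝓞 K) : K) = 1 := map_one (algebraMap (𝓞 K) K)
  rw [h1, EC_c4, h2, one_pow, one_mul]

theorem Q_eqK (a b : ℤ) : ((QQ K b : 𝓞 K) : K) = (((1 : 𝓞 K)) : K) ^ 6 * (EC K a b).c₆ := by
  have h1 : ((QQ K b : 𝓞 K) : K) = ((-864 * b : ℤ) : K) := by
    unfold QQ
    exact map_intCast (algebraMap (𝓞 K) K) _
  have h2 : ((1 : 𝓞 K) : K) = 1 := map_one (algebraMap (𝓞 K) K)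
  rw [h1, EC_c6, h2, one_pow, one_mul]

variable {a b : ℤ} (hab : 4 * a ^ 3 + 27 * b ^ 2 ≠ 0)

include hab in
/-- the size of the twist -/
theorem szH_twist {F : Type} [Field F] [NumberField F] [Algebra K F] {D : 𝓞 K} (hD : D ≠ 0)
    (X : TwistOver (EC K a b) F) (hX : X.D = algebraMap (𝓞 K) (𝓞 F) D) (τ : ℝ)
    {σ : HeightOneSpectrum (𝓞 K) → GK K} (hσ : ∀ v, IsFrob v (σ v)) :
    (∀ᶠ ε : ℝ in 𝓝[>] 0, LSeries X.V (3 / 2 + τ * Complex.I + ε) ≠ 0) ∧
    SzH (Pool.Agent.W353.NF.TT (syE (PP K a) (QQ K b)))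
      (fun v => ((fixn K F (σ v) : ℝ) * qc (D : K) (σ v)) * cz τ v) (size X.V τ) := by
  have h1 := size_twist one_ne_zero (P_eqK a b) (Q_eqK a b) (PQ_ne hab) X τ
  refine ⟨h1.1, ?_⟩
  have h2 := size_chi (syE (PP K a) (QQ K b)) (syE_real _ _) X.D_ne_zero
    (Pool.Agent.TH322.BC.Edge.syE_D _ _ _) σ hσ h1.2
  refine h2.congr (fun v => ?_) fun _ => rfl
  have h3 : ((X.D : 𝓞 F) : F) = algebraMap K F (D : K) := by
    rw [hX]
    rfl
  rw [h3, chi_base (Pool.Agent.TH322.BC.Edge.coe_ne hD)]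

theorem abs_prod_le {F : Type} [Field F] [NumberField F] [Algebra K F] (D : K) (τ : ℝ)
    (g : GK K) (v : HeightOneSpectrum (𝓞 K)) :
    |((fixn K F g : ℝ) * qc D g) * cz τ v| ≤ Module.finrank K F := by
  have hq : |qc D g| ≤ 1 := (sq_le_one_iff_abs_le_one _).1 (qc_sq D g).le
  rw [abs_mul, abs_mul, abs_of_nonneg (Nat.cast_nonneg _)]
  have h1 : (fixn K F g : ℝ) ≤ Module.finrank K F := fixn_le_finrank _
  calc (fixn K F g : ℝ) * |qc D g| * |cz τ v| ≤ (Module.finrank K F : ℝ) * 1 * 1 := by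
        refine mul_le_mul (mul_le_mul h1 hq (abs_nonneg _) (by positivity)) (abs_cz _ _)
          (abs_nonneg _) (by positivity)
    _ = _ := by ring

/-- the size over the field itself -/
theorem szH_own {D : K} {τ : ℝ} {σ : HeightOneSpectrum (𝓞 K) → GK K} {y : ℝ → ℝ}
    (h0 : SzH (Pool.Agent.W353.NF.TT (syE (PP K a) (QQ K b)))
      (fun v => ((fixn K K (σ v) : ℝ) * qc D (σ v)) * cz τ v) y) :
    SzH (Pool.Agent.W353.NF.TT (syE (PP K a) (QQ K b))) (fun v => qc D (σ v) * cz τ v) y :=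
  h0.congr (fun v => by rw [X288.L2.fixn_self]; push_cast; ring) fun _ => rfl

/-- the difference of the sizes -/
theorem szH_sub {F : Type} [Field F] [NumberField F] [Algebra K F] {D : K} {τ : ℝ}
    {σ : HeightOneSpectrum (𝓞 K) → GK K} {x y : ℝ → ℝ}
    (h1 : SzH (Pool.Agent.W353.NF.TT (syE (PP K a) (QQ K b)))
      (fun v => ((fixn K F (σ v) : ℝ) * qc D (σ v)) * cz τ v) x)
    (h0 : SzH (Pool.Agent.W353.NF.TT (syE (PP K a) (QQ K b)))
      (fun v => ((fixn K K (σ v) : ℝ) * qc D (σ v)) * cz τ v) y) :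
    SzH (Pool.Agent.W353.NF.TT (syE (PP K a) (QQ K b)))
      (fun v => ps F D (σ v) * cz τ v) (fun ε => x ε - y ε) := by
  have z := h1.add (h0.const_mul (-1)) (abs_TT_le a b) (fun v => abs_prod_le (F := F) D τ (σ v) v)
    (B' := (Module.finrank K K : ℝ)) (fun v => by
      rw [abs_mul, abs_neg, abs_one, one_mul]
      exact abs_prod_le (F := K) D τ (σ v) v)
  refine z.congr (fun v => ?_) fun ε => by ring
  unfold ps
  rw [X288.L2.fixn_self]
  push_cast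
  ring

end

section
variable {ι : Type} [Fintype ι]

/-- from the combinations to the sums of the squares -/
theorem uniform {x : ι → ℝ → ℝ} {W : ℝ} (hW : 0 ≤ W)
    (h : ∀ c : ι → ℝ, ∀ η : ℝ, 0 < η → ∀ᶠ ε : ℝ in 𝓝[>] 0,
      (∑ k, c k * x k ε) ^ 2 ≤ W * ∑ k, c k ^ 2 + η) :
    ∀ η : ℝ, 0 < η → ∀ᶠ ε : ℝ in 𝓝[>] 0, ∑ k, x k ε ^ 2 ≤ W + η := by
  intro η hη
  have hb : ∀ k, ∀ᶠ ε : ℝ in 𝓝[>] 0, x k ε ∈ Set.Icc (-(W + 1)) (W + 1) := by
    intro k
    refine (h (fun j => if j = k then 1 else 0) 1 one_pos).mono fun ε hε => ?_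
    simp only [ite_mul, one_mul, zero_mul, ite_pow, one_pow, ne_eq, OfNat.ofNat_ne_zero,
      not_false_eq_true, zero_pow, Finset.sum_ite_eq', Finset.mem_univ, if_true, mul_one] at hε
    constructor
    · nlinarith
    · nlinarith
  by_contra hcon
  rw [Filter.not_eventually] at hcon
  obtain ⟨𝒰, hU1, hU2⟩ : ∃ 𝒰 : Ultrafilter ℝ, (𝒰 : Filter ℝ) ≤ 𝓝[>] 0 ∧
      {ε : ℝ | ¬ ∑ k, x k ε ^ 2 ≤ W + η} ∈ 𝒰 := by
    have hne : NeBot (𝓝[>] (0 : ℝ) ⊓ 𝓟 {ε : ℝ | ¬ ∑ k, x k ε ^ 2 ≤ W + η}) :=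
      Filter.inf_principal_neBot_iff.2 fun U hU => by
        obtain ⟨y, hy1, hy2⟩ := (Filter.frequently_iff.1 hcon) hU
        exact ⟨y, hy1, hy2⟩
    have hle := Ultrafilter.of_le (𝓝[>] (0 : ℝ) ⊓ 𝓟 {ε : ℝ | ¬ ∑ k, x k ε ^ 2 ≤ W + η})
    exact ⟨_, hle.trans inf_le_left, hle.trans inf_le_right (Filter.mem_principal_self _)⟩
  have hlim : ∀ k, ∃ y : ℝ, Tendsto (x k) 𝒰 (𝓝 y) := by
    intro k
    have h1 : (Ultrafilter.map (x k) 𝒰 : Filter ℝ) ≤ 𝓟 (Set.Icc (-(W + 1)) (W + 1)) := by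
      rw [Filter.le_principal_iff]
      exact hU1 (hb k)
    obtain ⟨y, -, hy⟩ := isCompact_Icc.ultrafilter_le_nhds _ h1
    exact ⟨y, hy⟩
  choose y hy using hlim
  have h3 : ∀ c : ι → ℝ, (∑ k, c k * y k) ^ 2 ≤ W * ∑ k, c k ^ 2 := by
    intro c
    refine le_of_forall_pos_le_add fun η' hη' => ?_
    exact le_of_tendsto ((tendsto_finsetSum _ fun k _ => (hy k).const_mul (c k)).pow 2)
      (hU1 (h c η' hη'))
  have h4 : ∑ k, y k ^ 2 ≤ W := by
    have h5 := h3 y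
    have e : ∑ k, y k * y k = ∑ k, y k ^ 2 := Finset.sum_congr rfl fun k _ => by ring
    rw [e] at h5
    by_contra h6
    nlinarith [not_le.1 h6]
  have h5 : Tendsto (fun ε => ∑ k, x k ε ^ 2) 𝒰 (𝓝 (∑ k, y k ^ 2)) :=
    tendsto_finsetSum _ fun k _ => (hy k).pow 2
  have h6 : ∀ᶠ ε in (𝒰 : Filter ℝ), ∑ k, x k ε ^ 2 < W + η :=
    h5.eventually_lt_const (by linarith)
  obtain ⟨ε, a1, a2⟩ := (h6.and hU2).exists
  exact a2 a1.le

theorem limit_le {x : ι → ℝ → ℝ} {W : ℝ}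
    (h : ∀ η : ℝ, 0 < η → ∀ᶠ ε : ℝ in 𝓝[>] 0, ∑ k, x k ε ^ 2 ≤ W + η) {y : ι → ℝ}
    (hy : ∀ k, Tendsto (x k) (𝓝[>] 0) (𝓝 (y k))) : ∑ k, y k ^ 2 ≤ W := by
  refine le_of_forall_pos_le_add fun η hη => ?_
  exact le_of_tendsto (tendsto_finsetSum _ fun k _ => (hy k).pow 2) (h η hη)

end

section
variable {K : Type} [Field K] [NumberField K] {a b : ℤ} (hab : 4 * a ^ 3 + 27 * b ^ 2 ≠ 0)
  (hmod : IsModular a b) {ι : Type} [Fintype ι]

include hab hmod in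
/-- the twists over the field itself -/
theorem own (X₀ : ι → TwistOver (EC K a b) K) {τ : ι → ℝ}
    (hd : ∀ k l, k ≠ l → τ k = τ l → ¬ IsSquare (((X₀ k).D : K) * ((X₀ l).D : K))) :
    ∀ η : ℝ, 0 < η → ∀ᶠ ε : ℝ in 𝓝[>] 0,
      ∑ k, size (X₀ k).V (τ k) ε ^ 2 ≤ (N4 K : ℝ) + η := by
  choose σ hσ using exists_isFrob (F := K)
  have hD : ∀ k, ((X₀ k).D : K) ≠ 0 := fun k =>
    Pool.Agent.TH322.BC.Edge.coe_ne (X₀ k).D_ne_zero
  refine uniform (Nat.cast_nonneg _) fun c η hη => ?_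
  have h1 := multi (UU_open (K := K) (F := fun _ : ι => K) fun k => ((X₀ k).D : K)) hσ
    (abs_TT_le a b) (Nat.cast_nonneg _) (sec_min (K := K) hab hmod)
    (ψ := fun k => qc ((X₀ k).D : K))
    (fun k => cls_qc (hD k) (fun u hu => UU_qu (F := fun _ : ι => K) hD hu k))
    (τ := τ) (X := fun k => size (X₀ k).V (τ k))
    (fun k => szH_own (szH_twist hab (X₀ k).D_ne_zero (X₀ k) rfl (τ k) hσ).2) c hη
  refine h1.mono fun ε hε => hε.trans ?_
  have h2 := gram_qc (K := K) (F := K) (D := fun k => ((X₀ k).D : K)) (τ := τ) hD hd c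
  have h3 := mul_le_mul_of_nonneg_left h2 (Nat.cast_nonneg (α := ℝ) (N4 K))
  linarith

include hab hmod in
/-- the twists over an extension -/
theorem ext_gen {F : Type} [Field F] [NumberField F] [Algebra K F]
    (X₀ : ι → TwistOver (EC K a b) K) (X : ι → TwistOver (EC K a b) F)
    (hX : ∀ k, (X k).D = algebraMap (𝓞 K) (𝓞 F) (X₀ k).D) {τ : ι → ℝ} {W : ℝ} (hW : 0 ≤ W)
    (hg : ∀ c : ι → ℝ, gramG (UU K (fun _ : ι => F) fun k => ((X₀ k).D : K))
      (fun k => ps F ((X₀ k).D : K)) τ c ≤ W * ∑ k, c k ^ 2) :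
    ∀ η : ℝ, 0 < η → ∀ᶠ ε : ℝ in 𝓝[>] 0,
      ∑ k, (size (X k).V (τ k) ε - size (X₀ k).V (τ k) ε) ^ 2 ≤
        (N4 K : ℝ) * W + η := by
  choose σ hσ using exists_isFrob (F := K)
  have hD : ∀ k, ((X₀ k).D : K) ≠ 0 := fun k =>
    Pool.Agent.TH322.BC.Edge.coe_ne (X₀ k).D_ne_zero
  refine uniform (mul_nonneg (Nat.cast_nonneg _) hW) fun c η hη => ?_
  have h1 := multi (UU_open (K := K) (F := fun _ : ι => F) fun k => ((X₀ k).D : K)) hσ
    (abs_TT_le a b) (Nat.cast_nonneg _) (sec_min (K := K) hab hmod)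
    (ψ := fun k => ps F ((X₀ k).D : K))
    (fun k => cls_ps (hD k)
      (fun u hu => UU_act (F := fun _ : ι => F) (D := fun k => ((X₀ k).D : K)) hu k)
      (fun u hu => UU_qu (F := fun _ : ι => F) hD hu k))
    (τ := τ) (X := fun k ε => size (X k).V (τ k) ε - size (X₀ k).V (τ k) ε)
    (fun k => szH_sub (szH_twist hab (X₀ k).D_ne_zero (X k) (hX k) (τ k) hσ).2
      (szH_twist hab (X₀ k).D_ne_zero (X₀ k) rfl (τ k) hσ).2) c hη
  refine h1.mono fun ε hε => hε.trans ?_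
  have h3 := mul_le_mul_of_nonneg_left (hg c) (Nat.cast_nonneg (α := ℝ) (N4 K))
  linarith

include hab in
/-- the sizes tend to the orders -/
theorem lim_twist {F : Type} [Field F] [NumberField F] [Algebra K F] (X : TwistOver (EC K a b) F)
    {τ : ℝ} {m : ℤ} (hm : HasOrder X.V τ m) :
    Tendsto (size X.V τ) (𝓝[>] 0) (𝓝 (-(m : ℝ))) :=
  orders (size_twist one_ne_zero (P_eqK a b) (Q_eqK a b) (PQ_ne hab) X τ).1 hm

end

end Pool.Agent.V7H83.BO
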