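import Pool.Agent.V7H83.BO.E
import Pool.Agent.V7H44.HF.Disj

/-! The joint inequality over the field and over disjoint extensions. -/

set_option autoImplicit false
set_option linter.unusedSectionVars false
open Classical

namespace Pool.Agent.V7H83.BO

open Complex Filter Topology ComplexConjugate NumberField IsDedekindDomain Asymptotics
  Pool.Agent.W401.Cheb Pool.Agent.W540.BE Pool.Agent.W353.L1 Pool.Agent.W353.NF
open Pool.Agent.TH322.BC Pool.Agent.X288.L2
open Pool.Agent.W353.AB (Sy syE)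
open Pool.Agent.TH322.BC.Edge (TwistOver MinimalModels LSeries size HasOrder size_twist size_base
  orders)
open Pool.Agent.Y722.EP (IsModular)
open scoped TensorProduct

section
variable {K : Type} [Field K] [NumberField K]

/-- two elements whose product is a square have the same character -/
theorem qu_eq_of_square {D D' : K} (hD : D ≠ 0) (hD' : D' ≠ 0)
    (h : IsSquare (D * D')) (g : GK K) : qu D g = qu D' g := by
  obtain ⟨m, hm⟩ := h
  have h0 : qu (D * D') g = 1 := by
    refine qu_unique (mul_ne_zero hD hD') (s := em m) ?_ ?_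
    · rw [hm, em_mul, sq]
    · have : g (em m) = em m := AlgEquiv.commutes g m
      rw [this]
      simp
  rw [qu_prod hD hD'] at h0
  calc qu D g = qu D g * (qu D' g * qu D' g) := by rw [Int.units_mul_self, mul_one]
    _ = (qu D g * qu D' g) * qu D' g := by rw [mul_assoc]
    _ = qu D' g := by rw [h0, one_mul]

/-- the product has a square root in the compositum of the two closures -/
def Root2 (K F F' : Type) [Field K] [Field F] [Field F'] [Algebra K F] [Algebra K F'] (x : K) :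
    Prop :=
  ∃ y ∈ (Pool.Agent.W353.EF.closure K F ⊔ Pool.Agent.W353.EF.closure K F' :
    IntermediateField K (AlgebraicClosure K)), y ^ 2 = algebraMap K (AlgebraicClosure K) x

theorem exists_sep2 {F F' : Type} [Field F] [NumberField F] [Algebra K F] [Field F']
    [NumberField F'] [Algebra K F'] {D D' : K} (hD : D ≠ 0) (hD' : D' ≠ 0)
    (h : ¬ Root2 K F F' (D * D')) :
    ∃ g : GK K, qu D g * qu D' g = -1 ∧ act K F g = 1 ∧ act K F' g = 1 := by
  obtain ⟨g, hg1, hg⟩ := exists_move h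
  exact ⟨g, by rw [← qu_prod hD hD', hg],
    act_of_closure fun x hx => hg1 x ((le_sup_left : Pool.Agent.W353.EF.closure K F ≤ _) hx),
    act_of_closure fun x hx => hg1 x ((le_sup_right : Pool.Agent.W353.EF.closure K F' ≤ _) hx)⟩

theorem root2_comm {F F' : Type} [Field F] [Algebra K F] [Field F'] [Algebra K F'] {x : K} :
    Root2 K F F' x ↔ Root2 K F' F x := by
  unfold Root2
  rw [sup_comm]

end

section
variable {K : Type} [Field K] [NumberField K] {ι : Type} {D : ι → K}
  {U : Subgroup (GK K)} [U.Normal] [Finite (GK K ⧸ U)]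

theorem mean_qc_ps {F : Type} [Field F] [NumberField F] [Algebra K F] (hD : ∀ k, D k ≠ 0)
    (hU : ∀ k, ∀ u ∈ U, qu (D k) u = 1) (hU' : ∀ u ∈ U, act K F u = 1)
    (hc : ∀ k l, Root2 K F F (D k * D l) → IsSquare (D k * D l)) (k l : ι) :
    (avR U fun q => qc (D k) q.out * ps F (D l) q.out) = 0 := by
  by_cases h : Same K D k l
  · have e : (fun q : GK K ⧸ U => qc (D k) q.out * ps F (D l) q.out) =
        fun q => (fixn K F q.out : ℝ) + (-1) * 1 := by
      funext q
      unfold ps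
      calc qc (D k) q.out * (qc (D l) q.out * ((fixn K F q.out : ℝ) - 1)) =
            (qc (D k) q.out * qc (D l) q.out) * ((fixn K F q.out : ℝ) - 1) := by ring
        _ = _ := by rw [qc_mul_self_of_same h]; ring
    rw [e, avR_add, mean_fix_U hU', avR_const_mul, avR_one]
    norm_num
  · have h' : ¬ Root2 K F F (D k * D l) := fun h' => h fun g =>
      qu_eq_of_square (hD k) (hD l) (hc k l h') g
    obtain ⟨g, hg, hg2, -⟩ := exists_sep2 (hD k) (hD l) h'
    have hg' := qc_of_sep hg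
    refine mean_zero (f := fun g => qc (D k) g * ps F (D l) g) (g₀ := g)
      ((cls_qc (hD k) (hU k)).mul (cls_ps (hD l) hU' (hU l))).hU fun x => ?_
    unfold ps
    rw [qc_mul (hD k), qc_mul (hD l), fixn_mul_ker K F x g hg2]
    calc qc (D k) x * qc (D k) g * (qc (D l) x * qc (D l) g *
          ((fixn K F x : ℝ) - 1)) = qc (D k) x * (qc (D l) x *
          ((fixn K F x : ℝ) - 1)) * (qc (D k) g * qc (D l) g) := by ring
      _ = _ := by rw [hg']; ring

theorem mean_ps_ps {F F' : Type} [Field F] [NumberField F] [Algebra K F] [Field F']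
    [NumberField F'] [Algebra K F'] (hD : ∀ k, D k ≠ 0)
    (hU : ∀ k, ∀ u ∈ U, qu (D k) u = 1) (hU1 : ∀ u ∈ U, act K F u = 1)
    (hU2 : ∀ u ∈ U, act K F' u = 1) {A : ℝ}
    (hA : (avR U fun q => ((fixn K F q.out : ℝ) - 1) * ((fixn K F' q.out : ℝ) - 1)) = A)
    (hc : ∀ k l, Root2 K F F' (D k * D l) → IsSquare (D k * D l)) (k l : ι) :
    (avR U fun q => ps F (D k) q.out * ps F' (D l) q.out) = if Same K D k l then A else 0 := by
  split_ifs with h
  · rw [← hA]
    refine avR_congr fun q => ?_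
    unfold ps
    calc qc (D k) q.out * ((fixn K F q.out : ℝ) - 1) * (qc (D l) q.out *
          ((fixn K F' q.out : ℝ) - 1)) = (qc (D k) q.out * qc (D l) q.out) *
          (((fixn K F q.out : ℝ) - 1) * ((fixn K F' q.out : ℝ) - 1)) := by ring
      _ = _ := by rw [qc_mul_self_of_same h, one_mul]
  · have h' : ¬ Root2 K F F' (D k * D l) := fun h' => h fun g =>
      qu_eq_of_square (hD k) (hD l) (hc k l h') g
    obtain ⟨g, hg, hg2, hg3⟩ := exists_sep2 (hD k) (hD l) h'
    have hg' := qc_of_sep hg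
    refine mean_zero (f := fun g => ps F (D k) g * ps F' (D l) g) (g₀ := g)
      ((cls_ps (hD k) hU1 (hU k)).mul (cls_ps (hD l) hU2 (hU l))).hU fun x => ?_
    unfold ps
    rw [qc_mul (hD k), qc_mul (hD l), fixn_mul_ker K F x g hg2, fixn_mul_ker K F' x g hg3]
    calc qc (D k) x * qc (D k) g * ((fixn K F x : ℝ) - 1) * (qc (D l) x * qc (D l) g *
          ((fixn K F' x : ℝ) - 1)) = qc (D k) x * ((fixn K F x : ℝ) - 1) * (qc (D l) x *
          ((fixn K F' x : ℝ) - 1)) * (qc (D k) g * qc (D l) g) := by ring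
      _ = _ := by rw [hg']; ring

end

section
variable {K : Type} [Field K] [NumberField K] {ι κ : Type} [Fintype ι] [Fintype κ]
  {L : κ → Type} [∀ j, Field (L j)] [∀ j, NumberField (L j)] [∀ j, Algebra K (L j)]
  {D : ι → K} {τ : ι → ℝ}

/-- the functions for each character and for each pair of a character and a field -/
noncomputable def two (L : κ → Type) [∀ j, Field (L j)] [∀ j, NumberField (L j)]
    [∀ j, Algebra K (L j)] (D : ι → K) : ι ⊕ ι × κ → GK K → ℝ :=
  Sum.elim (fun k => qc (D k)) (fun z => ps (L z.2) (D z.1))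

/-- a common subgroup -/
noncomputable def U2 (K : Type) [Field K] [NumberField K] (L : κ → Type) [∀ j, Field (L j)]
    [∀ j, NumberField (L j)] [∀ j, Algebra K (L j)] (D : ι → K) : Subgroup (GK K) :=
  UU K (fun _ : ι => K) D ⊓ ⨅ j, (act K (L j)).ker

instance U2_normal (D : ι → K) : (U2 K L D).Normal := by
  have h1 : (⨅ j, (act K (L j)).ker).Normal := Subgroup.normal_iInf_normal fun _ => inferInstance
  exact Subgroup.normal_inf_normal _ _

theorem U2_open (D : ι → K) : IsOpen (U2 K L D : Set (GK K)) := by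
  unfold U2
  rw [Subgroup.coe_inf, Subgroup.coe_iInf]
  exact (UU_open (F := fun _ : ι => K) D).inter (isOpen_iInter_of_finite fun j => ker_act_open K _)

instance U2_fin (D : ι → K) : Finite (GK K ⧸ U2 K L D) :=
  Subgroup.quotient_finite_of_isOpen _ (U2_open D)

theorem U2_act {u : GK K} (hu : u ∈ U2 K L D) (j : κ) : act K (L j) u = 1 :=
  (iInf_le (fun j => (act K (L j)).ker) j) hu.2

theorem U2_qu (hD : ∀ k, D k ≠ 0) {u : GK K} (hu : u ∈ U2 K L D) (k : ι) : qu (D k) u = 1 :=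
  UU_qu (F := fun _ : ι => K) hD hu.1 k

theorem gram_two (hD : ∀ k, D k ≠ 0)
    (hdisj : ∀ i j, i ≠ j → IsField (L i ⊗[K] L j))
    (hc : ∀ i j k l, Root2 K (L i) (L j) (D k * D l) → IsSquare (D k * D l))
    (hd : ∀ k l, k ≠ l → τ k = τ l → ¬ IsSquare (D k * D l)) (c : ι ⊕ ι × κ → ℝ) :
    gramG (U2 K L D) (two L D) (Sum.elim τ fun z => τ z.1) c ≤
      ∑ k, c (Sum.inl k) ^ 2 +
        ∑ j, ((pairOrbits K (L j) : ℝ) - 1) * ∑ k, c (Sum.inr (k, j)) ^ 2 := by
  have hact : ∀ j, ∀ u ∈ U2 K L D, act K (L j) u = 1 := fun j u hu => U2_act hu j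
  have hqq : ∀ k, ∀ u ∈ U2 K L D, qu (D k) u = 1 := fun k u hu => U2_qu hD hu k
  set w : ι → ι → ℝ := fun k l => hw (τ k) (τ l) * (if Same K D k l then 1 else 0) with hwdef
  have hw0 : ∀ k l, 0 ≤ w k l := fun k l => mul_nonneg (hw_nonneg _ _) (by split_ifs <;> norm_num)
  have hws : ∀ k l, w k l = w l k := fun k l => by
    rw [hwdef]
    simp only
    rw [hw_symm]
    congr 1
    have : Same K D k l ↔ Same K D l k := ⟨fun h g => (h g).symm, fun h g => (h g).symm⟩
    simp only [this]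
  have hrow : ∀ k, ∑ l, w k l ≤ 1 := fun k =>
    hw_row (P := Same K D) (fun k l h g => (h g).symm) (fun k l m h h' g => (h g).trans (h' g))
      (fun k l hkl h => hd k l hkl h.2 (same_square hD h.1)) k
  have hA : ∀ i j, (avR (U2 K L D) fun q => ((fixn K (L i) q.out : ℝ) - 1) *
      ((fixn K (L j) q.out : ℝ) - 1)) = if i = j then (pairOrbits K (L i) : ℝ) - 1 else 0 := by
    intro i j
    split_ifs with h
    · have key : ∀ i j : κ, i = j → (avR (U2 K L D) fun q => ((fixn K (L i) q.out : ℝ) - 1) *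
          ((fixn K (L j) q.out : ℝ) - 1)) = (pairOrbits K (L i) : ℝ) - 1 := by
        rintro i _ rfl
        rw [← mean_sub_sq (hact i)]
        exact avR_congr fun q => by rw [sq]
      exact key _ _ h
    · exact Pool.Agent.V7H44.HF.avR_psi_mul (hact i) (hact j) (hdisj i j h)
  have e : gramG (U2 K L D) (two L D) (Sum.elim τ fun z => τ z.1) c =
      (∑ k, ∑ l, c (Sum.inl k) * c (Sum.inl l) * w k l) +
      ∑ j, ((pairOrbits K (L j) : ℝ) - 1) *
        ∑ k, ∑ l, c (Sum.inr (k, j)) * c (Sum.inr (l, j)) * w k l := by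
    unfold gramG
    rw [Fintype.sum_sum_type]
    simp only [Fintype.sum_sum_type, Sum.elim_inl, Sum.elim_inr, two]
    congr 1
    · refine Finset.sum_congr rfl fun k _ => ?_
      have z : ∀ z : ι × κ, c (Sum.inl k) * c (Sum.inr z) * (hw (τ k) (τ z.1) *
          avR (U2 K L D) fun q => qc (D k) q.out * ps (L z.2) (D z.1) q.out) = 0 := by
        intro z
        rw [mean_qc_ps hD hqq (hact z.2) (hc z.2 z.2) k z.1, mul_zero, mul_zero]
      rw [Finset.sum_congr rfl fun l _ => z l, Finset.sum_const_zero, add_zero]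
      refine Finset.sum_congr rfl fun l _ => ?_
      rw [mean_qc hD hqq k l]
    · have z : ∀ (z : ι × κ) (l : ι), c (Sum.inr z) * c (Sum.inl l) * (hw (τ z.1) (τ l) *
          avR (U2 K L D) fun q => ps (L z.2) (D z.1) q.out * qc (D l) q.out) = 0 := by
        intro z l
        rw [avR_congr fun q => mul_comm (ps (L z.2) (D z.1) q.out) (qc (D l) q.out),
          mean_qc_ps hD hqq (hact z.2) (hc z.2 z.2) l z.1, mul_zero, mul_zero]
      have e1 : ∀ z : ι × κ, (∑ l, c (Sum.inr z) * c (Sum.inl l) * (hw (τ z.1) (τ l) *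
          avR (U2 K L D) fun q => ps (L z.2) (D z.1) q.out * qc (D l) q.out)) +
          ∑ y : ι × κ, c (Sum.inr z) * c (Sum.inr y) * (hw (τ z.1) (τ y.1) *
          avR (U2 K L D) fun q => ps (L z.2) (D z.1) q.out * ps (L y.2) (D y.1) q.out) =
          ((pairOrbits K (L z.2) : ℝ) - 1) * ∑ l, c (Sum.inr z) * c (Sum.inr (l, z.2)) *
            w z.1 l := by
        intro z'
        rw [Finset.sum_congr rfl fun l _ => z z' l, Finset.sum_const_zero, zero_add,
          Fintype.sum_prod_type, Finset.mul_sum]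
        refine Finset.sum_congr rfl fun l _ => ?_
        have e2 : ∀ j, c (Sum.inr z') * c (Sum.inr (l, j)) * (hw (τ z'.1) (τ (l, j).1) *
            avR (U2 K L D) fun q => ps (L z'.2) (D z'.1) q.out * ps (L (l, j).2) (D (l, j).1) q.out)
            = if z'.2 = j then ((pairOrbits K (L z'.2) : ℝ) - 1) *
              (c (Sum.inr z') * c (Sum.inr (l, j)) * w z'.1 l) else 0 := by
          intro j
          rw [mean_ps_ps hD hqq (hact z'.2) (hact j) (hA z'.2 j) (hc z'.2 j) z'.1 l, hwdef]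
          simp only
          split_ifs <;> ring
        rw [Finset.sum_congr rfl fun j _ => e2 j, Finset.sum_ite_eq, if_pos (Finset.mem_univ _)]
      rw [Finset.sum_congr rfl fun z _ => e1 z, Fintype.sum_prod_type, Finset.sum_comm]
      refine Finset.sum_congr rfl fun j _ => ?_
      rw [Finset.mul_sum]
  rw [e]
  have h1 := schur hw0 hws (A := fun _ => 1) hrow fun k => c (Sum.inl k)
  simp only [mul_one] at h1
  refine add_le_add h1 (Finset.sum_le_sum fun j _ => ?_)
  have h2 := schur hw0 hws (A := fun _ => 1) hrow fun k => c (Sum.inr (k, j))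
  simp only [mul_one] at h2
  exact mul_le_mul_of_nonneg_left h2 (pairOrbits_pos K (L j))

end

section
variable {K : Type} [Field K] [NumberField K] {a b : ℤ} (hab : 4 * a ^ 3 + 27 * b ^ 2 ≠ 0)
  (hmod : IsModular a b) {ι κ : Type} [Fintype ι] [Fintype κ]
  {L : κ → Type} [∀ j, Field (L j)] [∀ j, NumberField (L j)] [∀ j, Algebra K (L j)]

include hab hmod in
/-- the joint inequality -/
theorem joint (X₀ : ι → TwistOver (EC K a b) K) (X : ι → ∀ j, TwistOver (EC K a b) (L j))
    (hX : ∀ k j, (X k j).D = algebraMap (𝓞 K) (𝓞 (L j)) (X₀ k).D) {τ : ι → ℝ}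
    (hd : ∀ k l, k ≠ l → τ k = τ l → ¬ IsSquare (((X₀ k).D : K) * ((X₀ l).D : K)))
    (hdisj : ∀ i j, i ≠ j → IsField (L i ⊗[K] L j))
    (hc : ∀ i j k l, Root2 K (L i) (L j) (((X₀ k).D : K) * ((X₀ l).D : K)) →
      IsSquare (((X₀ k).D : K) * ((X₀ l).D : K))) :
    ∀ η : ℝ, 0 < η → ∀ᶠ ε : ℝ in 𝓝[>] 0,
      ∑ k, (size (X₀ k).V (τ k) ε ^ 2 + ∑ j,
        (size (X k j).V (τ k) ε - size (X₀ k).V (τ k) ε) ^ 2 / ((pairOrbits K (L j) : ℝ) - 1)) ≤
        (N4 K : ℝ) + η := by
  choose σ hσ using exists_isFrob (F := K)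
  set D : ι → K := fun k => ((X₀ k).D : K) with hDdef
  have hD : ∀ k, D k ≠ 0 := fun k => Pool.Agent.TH322.BC.Edge.coe_ne (X₀ k).D_ne_zero
  have hr : ∀ j, 0 ≤ (pairOrbits K (L j) : ℝ) - 1 := fun j => pairOrbits_pos K (L j)
  set y : ι ⊕ ι × κ → ℝ → ℝ := Sum.elim (fun k ε => size (X₀ k).V (τ k) ε)
    (fun z ε => size (X z.1 z.2).V (τ z.1) ε - size (X₀ z.1).V (τ z.1) ε) with hy
  have hcls : ∀ z, Cls (U2 K L D) (two L D z) := by
    rintro (k | z)
    · exact cls_qc (hD k) (fun u hu => U2_qu hD hu k)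
    · exact cls_ps (hD z.1) (fun u hu => U2_act hu z.2) (fun u hu => U2_qu hD hu z.1)
  have hsz : ∀ z, SzH (Pool.Agent.W353.NF.TT (syE (PP K a) (QQ K b)))
      (fun v => two L D z (σ v) * cz ((Sum.elim τ fun z => τ z.1 : ι ⊕ ι × κ → ℝ) z) v) (y z) := by
    rintro (k | z)
    · exact szH_own (szH_twist hab (X₀ k).D_ne_zero (X₀ k) rfl (τ k) hσ).2
    · exact szH_sub (szH_twist hab (X₀ z.1).D_ne_zero (X z.1 z.2) (hX z.1 z.2) (τ z.1) hσ).2
        (szH_twist hab (X₀ z.1).D_ne_zero (X₀ z.1) rfl (τ z.1) hσ).2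
  have hgen : ∀ c : ι ⊕ ι × κ → ℝ, ∀ η : ℝ, 0 < η → ∀ᶠ ε : ℝ in 𝓝[>] 0,
      (∑ z, c z * y z ε) ^ 2 ≤ (N4 K : ℝ) *
        (∑ k, c (Sum.inl k) ^ 2 + ∑ j, ((pairOrbits K (L j) : ℝ) - 1) *
          ∑ k, c (Sum.inr (k, j)) ^ 2) + η := by
    intro c η hη
    have h1 := multi (U2_open (K := K) (L := L) D) hσ
      (abs_TT_le a b) (Nat.cast_nonneg _) (sec_min (K := K) hab hmod)
      hcls (τ := Sum.elim τ fun z => τ z.1) hsz c hη
    refine h1.mono fun ε hε => hε.trans ?_
    have h3 := mul_le_mul_of_nonneg_left (gram_two hD hdisj hc hd c)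
      (Nat.cast_nonneg (α := ℝ) (N4 K))
    linarith
  set s : κ → ℝ := fun j => (Real.sqrt ((pairOrbits K (L j) : ℝ) - 1))⁻¹ with hs
  have hs2 : ∀ j, ((pairOrbits K (L j) : ℝ) - 1) * s j ^ 2 ≤ 1 := by
    intro j
    rw [hs]
    simp only
    rw [inv_pow, Real.sq_sqrt (hr j)]
    exact mul_inv_le_one
  set x : ι ⊕ ι × κ → ℝ → ℝ := Sum.elim (fun k ε => size (X₀ k).V (τ k) ε)
    (fun z ε => s z.2 * (size (X z.1 z.2).V (τ z.1) ε - size (X₀ z.1).V (τ z.1) ε)) with hx
  have h2 := uniform (x := x) (W := (N4 K : ℝ)) (Nat.cast_nonneg _) (by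
    intro c η hη
    refine (hgen (Sum.elim (fun k => c (Sum.inl k)) fun z => s z.2 * c (Sum.inr z)) η hη).mono
      fun ε hε => ?_
    have e1 : ∑ z, (Sum.elim (fun k => c (Sum.inl k)) (fun z => s z.2 * c (Sum.inr z)) :
        ι ⊕ ι × κ → ℝ) z * y z ε = ∑ z, c z * x z ε := by
      refine Finset.sum_congr rfl fun z _ => ?_
      rcases z with k | k
      · rfl
      · rw [hy, hx]
        simp only [Sum.elim_inr]
        ring
    rw [e1] at hε
    refine hε.trans ?_
    rw [Fintype.sum_sum_type (f := fun z => c z ^ 2), Fintype.sum_prod_type]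
    rw [Finset.sum_comm (f := fun k j => c (Sum.inr (k, j)) ^ 2)]
    have h4 : ∑ j, ((pairOrbits K (L j) : ℝ) - 1) * ∑ k, (Sum.elim (fun k => c (Sum.inl k))
        (fun z => s z.2 * c (Sum.inr z)) : ι ⊕ ι × κ → ℝ) (Sum.inr (k, j)) ^ 2 ≤
        ∑ j, ∑ k, c (Sum.inr (k, j)) ^ 2 := by
      refine Finset.sum_le_sum fun j _ => ?_
      have e2 : ∑ k, (Sum.elim (fun k => c (Sum.inl k)) (fun z => s z.2 * c (Sum.inr z)) :
          ι ⊕ ι × κ → ℝ) (Sum.inr (k, j)) ^ 2 = s j ^ 2 * ∑ k, c (Sum.inr (k, j)) ^ 2 := by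
        rw [Finset.mul_sum]
        refine Finset.sum_congr rfl fun k _ => ?_
        simp only [Sum.elim_inr]
        ring
      rw [e2, ← mul_assoc]
      calc ((pairOrbits K (L j) : ℝ) - 1) * s j ^ 2 * ∑ k, c (Sum.inr (k, j)) ^ 2 ≤
            1 * ∑ k, c (Sum.inr (k, j)) ^ 2 :=
            mul_le_mul_of_nonneg_right (hs2 j) (Finset.sum_nonneg fun k _ => sq_nonneg _)
        _ = _ := one_mul _
    have e3 : ∑ k, (Sum.elim (fun k => c (Sum.inl k)) (fun z => s z.2 * c (Sum.inr z)) :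
        ι ⊕ ι × κ → ℝ) (Sum.inl k) ^ 2 = ∑ k, c (Sum.inl k) ^ 2 := rfl
    rw [e3]
    have h5 := mul_le_mul_of_nonneg_left h4 (Nat.cast_nonneg (α := ℝ) (N4 K))
    linarith)
  intro η hη
  refine (h2 η hη).mono fun ε hε => le_trans (le_of_eq ?_) hε
  rw [Fintype.sum_sum_type, Finset.sum_add_distrib, Fintype.sum_prod_type]
  congr 1
  refine Finset.sum_congr rfl fun k _ => Finset.sum_congr rfl fun j _ => ?_
  rw [hx]
  simp only [Sum.elim_inr]
  rw [mul_pow, hs]
  simp only
  rw [inv_pow, Real.sq_sqrt (hr j), div_eq_inv_mul]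

end

end Pool.Agent.V7H83.BO
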