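import Pool.Agent.V7H83.BO.G
import Pool.Agent.V7H44.HF.Fin

/-! Counting the exceptional twists. -/

set_option autoImplicit false
set_option linter.unusedSectionVars false
open Classical

namespace Pool.Agent.V7H83.BO

open Complex Filter Topology ComplexConjugate NumberField IsDedekindDomain Asymptotics
  Pool.Agent.W401.Cheb Pool.Agent.W540.BE Pool.Agent.W353.L1 Pool.Agent.W353.NF
open Pool.Agent.TH322.BC Pool.Agent.X288.L2
open Pool.Agent.W353.AB (Sy syE)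
open Pool.Agent.TH322.BC.Edge (TwistOver MinimalModels LSeries size HasOrder size_twist size_base
  orders)
open Pool.Agent.Y722.EP (IsModular)
open scoped TensorProduct

/-- from the bounds for the sums to the limits -/
theorem lim_sum {α : Type} {H : Finset α} {s : α → ℝ → ℝ} {W : ℝ}
    (h : ∀ η : ℝ, 0 < η → ∀ᶠ ε : ℝ in 𝓝[>] 0, ∑ z ∈ H, s z ε ^ 2 ≤ W + η) {y : α → ℝ}
    (hy : ∀ z ∈ H, Tendsto (s z) (𝓝[>] 0) (𝓝 (y z))) : ∑ z ∈ H, y z ^ 2 ≤ W := by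
  refine le_of_forall_pos_le_add fun η hη => ?_
  exact le_of_tendsto (tendsto_finsetSum _ fun z hz => (hy z hz).pow 2) (h η hη)

/-- from the bounds for the pairs to the number of the exceptional indices -/
theorem count {ι : Type} [Fintype ι] {s : ι → ℝ → ℝ → ℝ} {W : ℝ}
    (hs : ∀ k τ ε, s k (-τ) ε = s k τ ε)
    (h : ∀ H : Finset (ι × ℝ), ∀ η : ℝ, 0 < η → ∀ᶠ ε : ℝ in 𝓝[>] 0,
        ∑ z ∈ H, s z.1 z.2 ε ^ 2 ≤ W + η) :
    (Nat.card {k // ∃ τ : ℝ, ∃ y : ℝ, 1 ≤ y ^ 2 ∧ Tendsto (s k τ) (𝓝[>] 0) (𝓝 y)} : ℝ) ≤ W ∧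
    2 * (Nat.card {k // ∃ τ : ℝ, τ ≠ 0 ∧ ∃ y : ℝ, 1 ≤ y ^ 2 ∧
      Tendsto (s k τ) (𝓝[>] 0) (𝓝 y)} : ℝ) ≤ W := by
  constructor
  · set P : ι → Prop := fun k => ∃ τ : ℝ, ∃ y : ℝ, 1 ≤ y ^ 2 ∧
      Tendsto (s k τ) (𝓝[>] 0) (𝓝 y) with hP
    have hch : ∀ k, ∃ τ y : ℝ, P k → 1 ≤ y ^ 2 ∧ Tendsto (s k τ) (𝓝[>] 0) (𝓝 y) := by
      intro k
      by_cases hk : P k
      · obtain ⟨τ, y, h1⟩ := hk
        exact ⟨τ, y, fun _ => h1⟩
      · exact ⟨0, 0, fun h => absurd h hk⟩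
    choose t y hty using hch
    set A : Finset ι := Finset.univ.filter P with hA
    have h1 := lim_sum (h (A.image fun k => (k, t k))) (y := fun z => y z.1) (fun z hz => by
      rw [Finset.mem_image] at hz
      obtain ⟨k, hk, rfl⟩ := hz
      exact (hty k (Finset.mem_filter.1 hk).2).2)
    rw [Finset.sum_image (fun k _ l _ hkl => congrArg Prod.fst hkl)] at h1
    have h2 : ∑ _k ∈ A, (1 : ℝ) ≤ ∑ k ∈ A, y k ^ 2 :=
      Finset.sum_le_sum fun k hk => (hty k (Finset.mem_filter.1 hk).2).1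
    rw [Finset.sum_const, nsmul_eq_mul, mul_one] at h2
    rw [Nat.card_eq_fintype_card, Fintype.card_subtype]
    exact h2.trans h1
  · set P : ι → Prop := fun k => ∃ τ : ℝ, τ ≠ 0 ∧ ∃ y : ℝ, 1 ≤ y ^ 2 ∧
      Tendsto (s k τ) (𝓝[>] 0) (𝓝 y) with hP
    have hch : ∀ k, ∃ τ y : ℝ, P k → τ ≠ 0 ∧ 1 ≤ y ^ 2 ∧ Tendsto (s k τ) (𝓝[>] 0) (𝓝 y) := by
      intro k
      by_cases hk : P k
      · obtain ⟨τ, h0, y, h1⟩ := hk
        exact ⟨τ, y, fun _ => ⟨h0, h1⟩⟩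
      · exact ⟨0, 0, fun h => absurd h hk⟩
    choose t y hty using hch
    set A : Finset ι := Finset.univ.filter P with hA
    have hdis : Disjoint (A.image fun k => (k, t k)) (A.image fun k => (k, -t k)) := by
      rw [Finset.disjoint_left]
      intro z h1 h2
      rw [Finset.mem_image] at h1 h2
      obtain ⟨k, hk, rfl⟩ := h1
      obtain ⟨l, hl, h3⟩ := h2
      have e1 : l = k := congrArg Prod.fst h3
      have e2 : -t l = t k := congrArg Prod.snd h3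
      subst e1
      exact (hty l (Finset.mem_filter.1 hk).2).1 (by linarith)
    have h1 := lim_sum (h ((A.image fun k => (k, t k)) ∪ (A.image fun k => (k, -t k))))
      (y := fun z => y z.1) (fun z hz => by
      rw [Finset.mem_union, Finset.mem_image, Finset.mem_image] at hz
      rcases hz with ⟨k, hk, rfl⟩ | ⟨k, hk, rfl⟩
      · exact (hty k (Finset.mem_filter.1 hk).2).2.2
      · exact (hty k (Finset.mem_filter.1 hk).2).2.2.congr fun ε => (hs _ _ _).symm)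
    rw [Finset.sum_union hdis, Finset.sum_image (fun k _ l _ hkl => congrArg Prod.fst hkl),
      Finset.sum_image (fun k _ l _ hkl => congrArg Prod.fst hkl)] at h1
    have h2 : ∑ _k ∈ A, (1 : ℝ) ≤ ∑ k ∈ A, y k ^ 2 :=
      Finset.sum_le_sum fun k hk => (hty k (Finset.mem_filter.1 hk).2).2.1
    rw [Finset.sum_const, nsmul_eq_mul, mul_one] at h2
    rw [Nat.card_eq_fintype_card, Fintype.card_subtype]
    have h3 : ∑ k ∈ A, y k ^ 2 + ∑ k ∈ A, y k ^ 2 ≤ W := h1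
    change 2 * ((A.card : ℕ) : ℝ) ≤ W
    linarith

/-- a smaller set has fewer elements -/
theorem card_mono {ι : Type} [Fintype ι] {P Q : ι → Prop} (h : ∀ k, P k → Q k) :
    Nat.card {k // P k} ≤ Nat.card {k // Q k} :=
  Nat.card_le_card_of_injective (fun z : {k // P k} => (⟨z.1, h _ z.2⟩ : {k // Q k}))
    fun _ _ hxy => Subtype.ext (Subtype.mk.inj hxy)

section
variable {K : Type} [Field K] [NumberField K] {a b : ℤ} (hab : 4 * a ^ 3 + 27 * b ^ 2 ≠ 0)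
  (hmod : IsModular a b) {ι : Type} [Fintype ι]

include hab hmod in
theorem own_fin (X₀ : ι → TwistOver (EC K a b) K)
    (hd : ∀ k l, k ≠ l → ¬ IsSquare (((X₀ k).D : K) * ((X₀ l).D : K))) (H : Finset (ι × ℝ))
    (η : ℝ) (hη : 0 < η) : ∀ᶠ ε : ℝ in 𝓝[>] 0,
      ∑ z ∈ H, size (X₀ z.1).V z.2 ε ^ 2 ≤ (N4 K : ℝ) + η := by
  have h1 := own hab hmod (ι := H) (fun z => X₀ z.1.1) (τ := fun z => z.1.2)
    (fun z w hzw hτ => hd _ _ fun h => hzw (Subtype.ext (Prod.ext h hτ))) η hη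
  refine h1.mono fun ε hε => le_trans (le_of_eq ?_) hε
  exact (Finset.sum_coe_sort H fun z => size (X₀ z.1).V z.2 ε ^ 2).symm

include hab hmod in
/-- one extension -/
theorem ext_fin {F : Type} [Field F] [NumberField F] [Algebra K F]
    (X₀ : ι → TwistOver (EC K a b) K) (X : ι → TwistOver (EC K a b) F)
    (hX : ∀ k, (X k).D = algebraMap (𝓞 K) (𝓞 F) (X₀ k).D)
    (hd : ∀ k l, k ≠ l → ¬ IsSquare (((X₀ k).D : K) * ((X₀ l).D : K))) {q : ℕ}
    (hq : ∀ k, Nat.card {l // Root2 K F F (((X₀ k).D : K) * ((X₀ l).D : K))} ≤ q)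
    (H : Finset (ι × ℝ)) (η : ℝ) (hη : 0 < η) :
    ∀ᶠ ε : ℝ in 𝓝[>] 0,
      ∑ z ∈ H, (size (X z.1).V z.2 ε - size (X₀ z.1).V z.2 ε) ^ 2 ≤
        (N4 K : ℝ) *
          min (((Module.finrank K F : ℝ) - 1) ^ 2) ((q : ℝ) * ((pairOrbits K F : ℝ) - 1)) + η := by
  have hr := pairOrbits_pos K F
  have hD : ∀ z : H, ((X₀ z.1.1).D : K) ≠ 0 := fun z =>
    Pool.Agent.TH322.BC.Edge.coe_ne (X₀ z.1.1).D_ne_zero
  have hdd : ∀ z w : H, z ≠ w → z.1.2 = w.1.2 →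
      ¬ IsSquare (((X₀ z.1.1).D : K) * ((X₀ w.1.1).D : K)) := fun z w hzw hτ =>
    hd _ _ fun h => hzw (Subtype.ext (Prod.ext h hτ))
  have hcl : ∀ z w : H, Close K F (fun z : H => ((X₀ z.1.1).D : K)) z w →
      Root2 K F F (((X₀ z.1.1).D : K) * ((X₀ w.1.1).D : K)) := by
    rintro z w ⟨y, h1, h2⟩
    exact ⟨y, by rw [sup_idem]; exact h1, h2⟩
  have h1 := ext_gen hab hmod (ι := H) (fun z => X₀ z.1.1) (fun z => X z.1.1)
    (fun z => hX z.1.1) (τ := fun z => z.1.2)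
    (W := min (((Module.finrank K F : ℝ) - 1) ^ 2) ((q : ℝ) * ((pairOrbits K F : ℝ) - 1)))
    (le_min (sq_nonneg _) (mul_nonneg (Nat.cast_nonneg _) hr)) (fun c => by
      have h1 := gram_all (F := F) hD (τ := fun z : H => z.1.2) hdd c
      have h2 := gram_close (F := F) hD (τ := fun z : H => z.1.2) (q := q) (fun z t => by
        refine (Nat.card_le_card_of_injective
          (fun y : {w : H // w.1.2 = t ∧ Close K F (fun z : H => ((X₀ z.1.1).D : K)) z w} =>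
            (⟨y.1.1.1, hcl z y.1 y.2.2⟩ :
              {l // Root2 K F F (((X₀ z.1.1).D : K) * ((X₀ l).D : K))})) ?_).trans (hq z.1.1)
        intro y y' hy
        have h3 : y.1.1.1 = y'.1.1.1 := Subtype.mk.inj hy
        exact Subtype.ext (Subtype.ext (Prod.ext h3 (y.2.1.trans y'.2.1.symm)))) c
      rw [min_mul_of_nonneg _ _ (Finset.sum_nonneg fun k _ => sq_nonneg _)]
      exact le_min h1 h2) η hη
  refine h1.mono fun ε hε => le_trans (le_of_eq ?_) hε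
  exact (Finset.sum_coe_sort H fun z => (size (X z.1).V z.2 ε - size (X₀ z.1).V z.2 ε) ^ 2).symm

end

section
variable {K : Type} [Field K] [NumberField K] {a b : ℤ} (hab : 4 * a ^ 3 + 27 * b ^ 2 ≠ 0)
  (hmod : IsModular a b) {ι κ : Type} [Fintype ι] [Fintype κ]
  {L : κ → Type} [∀ j, Field (L j)] [∀ j, NumberField (L j)] [∀ j, Algebra K (L j)]
  (X₀ : ι → TwistOver (EC K a b) K) (X : ι → ∀ j, TwistOver (EC K a b) (L j))
  (hX : ∀ k j, (X k j).D = algebraMap (𝓞 K) (𝓞 (L j)) (X₀ k).D)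
  (hd : ∀ k l, k ≠ l → ¬ IsSquare (((X₀ k).D : K) * ((X₀ l).D : K)))
  (hdisj : ∀ i j, i ≠ j → IsField (L i ⊗[K] L j))
  (hc : ∀ i j k l, Root2 K (L i) (L j) (((X₀ k).D : K) * ((X₀ l).D : K)) →
    IsSquare (((X₀ k).D : K) * ((X₀ l).D : K)))

include hab hmod hX hd hdisj hc in
/-- several extensions -/
theorem joint_fin (H : Finset (ι × ℝ)) (η : ℝ) (hη : 0 < η) : ∀ᶠ ε : ℝ in 𝓝[>] 0,
      ∑ z ∈ H, (size (X₀ z.1).V z.2 ε ^ 2 + ∑ j,
        (size (X z.1 j).V z.2 ε - size (X₀ z.1).V z.2 ε) ^ 2 / ((pairOrbits K (L j) : ℝ) - 1)) ≤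
        (N4 K : ℝ) + η := by
  have h1 := joint hab hmod (ι := H) (fun z => X₀ z.1.1) (fun z j => X z.1.1 j)
    (fun z j => hX z.1.1 j) (τ := fun z => z.1.2)
    (fun z w hzw hτ => hd _ _ fun h => hzw (Subtype.ext (Prod.ext h hτ))) hdisj
    (fun i j z w h => by
      by_cases hzw : z.1.1 = w.1.1
      · rw [hzw]
        exact ⟨_, rfl⟩
      · exact hc i j _ _ h) η hη
  refine h1.mono fun ε hε => le_trans (le_of_eq ?_) hε
  exact (Finset.sum_coe_sort H fun z => (size (X₀ z.1).V z.2 ε ^ 2 + ∑ j,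
        (size (X z.1 j).V z.2 ε - size (X₀ z.1).V z.2 ε) ^ 2 /
          ((pairOrbits K (L j) : ℝ) - 1))).symm

include hab hmod hX hd hdisj hc in
/-- the limits -/
theorem joint_lims (T : Finset (ι × ℝ)) (S : Finset ((ι × ℝ) × κ)) (x : ι × ℝ → ℝ)
    (y : (ι × ℝ) × κ → ℝ)
    (hx : ∀ z ∈ T, Tendsto (size (X₀ z.1).V z.2) (𝓝[>] 0) (𝓝 (x z)))
    (hy : ∀ w ∈ S, Tendsto (fun ε => size (X w.1.1 w.2).V w.1.2 ε - size (X₀ w.1.1).V w.1.2 ε)
      (𝓝[>] 0) (𝓝 (y w))) :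
    ∑ z ∈ T, x z ^ 2 + ∑ w ∈ S, y w ^ 2 / ((pairOrbits K (L w.2) : ℝ) - 1) ≤
      (N4 K : ℝ) := by
  refine le_of_forall_pos_le_add fun η hη => ?_
  have hr : ∀ j, 0 ≤ (pairOrbits K (L j) : ℝ) - 1 := fun j => pairOrbits_pos K (L j)
  have h1 := joint_fin hab hmod X₀ X hX hd hdisj hc (T ∪ S.image Prod.fst) η hη
  have h2 : Tendsto (fun ε => ∑ z ∈ T, size (X₀ z.1).V z.2 ε ^ 2 + ∑ w ∈ S,
      (size (X w.1.1 w.2).V w.1.2 ε - size (X₀ w.1.1).V w.1.2 ε) ^ 2 /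
        ((pairOrbits K (L w.2) : ℝ) - 1)) (𝓝[>] 0) (𝓝 (∑ z ∈ T, x z ^ 2 +
        ∑ w ∈ S, y w ^ 2 / ((pairOrbits K (L w.2) : ℝ) - 1))) :=
    (tendsto_finsetSum _ fun z hz => (hx z hz).pow 2).add
      (tendsto_finsetSum _ fun w hw => ((hy w hw).pow 2).div_const _)
  refine le_of_tendsto h2 (h1.mono fun ε hε => le_trans ?_ hε)
  rw [Finset.sum_add_distrib]
  refine add_le_add ?_ ?_
  · exact Finset.sum_le_sum_of_subset_of_nonneg Finset.subset_union_left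
      fun _ _ _ => sq_nonneg _
  · have e : ∑ z ∈ T ∪ S.image Prod.fst, ∑ j,
        (size (X z.1 j).V z.2 ε - size (X₀ z.1).V z.2 ε) ^ 2 / ((pairOrbits K (L j) : ℝ) - 1) =
        ∑ w ∈ (T ∪ S.image Prod.fst) ×ˢ (Finset.univ : Finset κ),
          (size (X w.1.1 w.2).V w.1.2 ε - size (X₀ w.1.1).V w.1.2 ε) ^ 2 /
          ((pairOrbits K (L w.2) : ℝ) - 1) := by
      rw [Finset.sum_product]
    rw [e]
    refine Finset.sum_le_sum_of_subset_of_nonneg (fun w hw => ?_) fun w _ _ =>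
      div_nonneg (sq_nonneg _) (hr _)
    rw [Finset.mem_product]
    exact ⟨Finset.mem_union_right _ (Finset.mem_image_of_mem _ hw), Finset.mem_univ _⟩

include hab hmod hX hd hdisj hc in
/-- the number of the exceptional pairs of a twist and a field -/
theorem count_pairs {r : ℕ}
    (hr : ∀ j, 1 < Module.finrank K (L j) ∧ pairOrbits K (L j) ≤ r + 1) :
    Nat.card {w : ι × κ // ∃ τ : ℝ, ∃ y : ℝ, 1 ≤ y ^ 2 ∧
      Tendsto (fun ε => size (X w.1 w.2).V τ ε - size (X₀ w.1).V τ ε) (𝓝[>] 0) (𝓝 y)} ≤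
      r * N4 K ∧
    2 * Nat.card {w : ι × κ // ∃ τ : ℝ, τ ≠ 0 ∧ ∃ y : ℝ, 1 ≤ y ^ 2 ∧
      Tendsto (fun ε => size (X w.1 w.2).V τ ε - size (X₀ w.1).V τ ε) (𝓝[>] 0) (𝓝 y)} ≤
      r * N4 K := by
  have hrj : ∀ j, (1 : ℝ) ≤ (pairOrbits K (L j) : ℝ) - 1 ∧
      (pairOrbits K (L j) : ℝ) - 1 ≤ r := by
    intro j
    have h1 : (2 : ℝ) ≤ (pairOrbits K (L j) : ℝ) := by
      exact_mod_cast Pool.Agent.V7H44.HF.two_le_pairOrbits K (L j) (hr j).1
    have h2 : (pairOrbits K (L j) : ℝ) ≤ r + 1 := by exact_mod_cast (hr j).2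
    exact ⟨by linarith, by linarith⟩
  have hterm : ∀ (j : κ) (y : ℝ), 1 ≤ y ^ 2 →
      1 / (r : ℝ) ≤ y ^ 2 / ((pairOrbits K (L j) : ℝ) - 1) := by
    intro j y hy
    obtain ⟨h1, h2⟩ := hrj j
    exact div_le_div₀ (sq_nonneg _) hy (by linarith) h2
  have hfin : ∀ A : Finset (ι × κ), A.Nonempty → (r : ℝ) * (1 / (r : ℝ)) = 1 := by
    rintro A ⟨w, -⟩
    obtain ⟨h1, h2⟩ := hrj w.2
    exact mul_one_div_cancel (by linarith)
  constructor
  · set P : ι × κ → Prop := fun w => ∃ τ : ℝ, ∃ y : ℝ, 1 ≤ y ^ 2 ∧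
      Tendsto (fun ε => size (X w.1 w.2).V τ ε - size (X₀ w.1).V τ ε) (𝓝[>] 0) (𝓝 y) with hP
    have hch : ∀ w, ∃ τ y : ℝ, P w → 1 ≤ y ^ 2 ∧
        Tendsto (fun ε => size (X w.1 w.2).V τ ε - size (X₀ w.1).V τ ε) (𝓝[>] 0) (𝓝 y) := by
      intro w
      by_cases hk : P w
      · obtain ⟨τ, y, h1⟩ := hk
        exact ⟨τ, y, fun _ => h1⟩
      · exact ⟨0, 0, fun h => absurd h hk⟩
    choose t y hty using hch
    set A : Finset (ι × κ) := Finset.univ.filter P with hA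
    have hinj : ∀ w ∈ A, ∀ w' ∈ A, ((w.1, t w), w.2) = ((w'.1, t w'), w'.2) → w = w' :=
      fun w _ w' _ h => Prod.ext (congrArg (fun z => z.1.1) h) (congrArg (fun z => z.2) h)
    have h1 := joint_lims hab hmod X₀ X hX hd hdisj hc ∅
      (A.image fun w => ((w.1, t w), w.2)) (fun _ => 0) (fun w => y (w.1.1, w.2))
      (fun z hz => absurd hz (Finset.notMem_empty z)) (fun w hw => by
        rw [Finset.mem_image] at hw
        obtain ⟨k, hk, rfl⟩ := hw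
        exact (hty k (Finset.mem_filter.1 hk).2).2)
    rw [Finset.sum_empty, zero_add, Finset.sum_image hinj] at h1
    have h2 : ∑ _w ∈ A, 1 / (r : ℝ) ≤ ∑ w ∈ A, y w ^ 2 / ((pairOrbits K (L w.2) : ℝ) - 1) :=
      Finset.sum_le_sum fun w hw => hterm _ _ (hty w (Finset.mem_filter.1 hw).2).1
    rw [Finset.sum_const, nsmul_eq_mul] at h2
    rw [Nat.card_eq_fintype_card, Fintype.card_subtype]
    change A.card ≤ _
    rcases A.eq_empty_or_nonempty with h0 | h0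
    · rw [h0, Finset.card_empty]
      exact Nat.zero_le _
    · have h3 := mul_le_mul_of_nonneg_left (h2.trans h1) (Nat.cast_nonneg (α := ℝ) r)
      have e : (r : ℝ) * ((A.card : ℝ) * (1 / (r : ℝ))) = A.card := by
        calc (r : ℝ) * ((A.card : ℝ) * (1 / (r : ℝ))) =
              (A.card : ℝ) * ((r : ℝ) * (1 / (r : ℝ))) := by ring
          _ = A.card := by rw [hfin A h0, mul_one]
      rw [e] at h3
      exact_mod_cast h3
  · set P : ι × κ → Prop := fun w => ∃ τ : ℝ, τ ≠ 0 ∧ ∃ y : ℝ, 1 ≤ y ^ 2 ∧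
      Tendsto (fun ε => size (X w.1 w.2).V τ ε - size (X₀ w.1).V τ ε) (𝓝[>] 0) (𝓝 y) with hP
    have hch : ∀ w, ∃ τ y : ℝ, P w → τ ≠ 0 ∧ 1 ≤ y ^ 2 ∧
        Tendsto (fun ε => size (X w.1 w.2).V τ ε - size (X₀ w.1).V τ ε) (𝓝[>] 0) (𝓝 y) := by
      intro w
      by_cases hk : P w
      · obtain ⟨τ, h0, y, h1⟩ := hk
        exact ⟨τ, y, fun _ => ⟨h0, h1⟩⟩
      · exact ⟨0, 0, fun h => absurd h hk⟩
    choose t y hty using hch
    set A : Finset (ι × κ) := Finset.univ.filter P with hA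
    have hinj : ∀ w ∈ A, ∀ w' ∈ A, ((w.1, t w), w.2) = ((w'.1, t w'), w'.2) → w = w' :=
      fun w _ w' _ h => Prod.ext (congrArg (fun z => z.1.1) h) (congrArg (fun z => z.2) h)
    have hinj' : ∀ w ∈ A, ∀ w' ∈ A, ((w.1, -t w), w.2) = ((w'.1, -t w'), w'.2) → w = w' :=
      fun w _ w' _ h => Prod.ext (congrArg (fun z => z.1.1) h) (congrArg (fun z => z.2) h)
    have hdis : Disjoint (A.image fun w => ((w.1, t w), w.2))
        (A.image fun w => ((w.1, -t w), w.2)) := by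
      rw [Finset.disjoint_left]
      intro z h1 h2
      rw [Finset.mem_image] at h1 h2
      obtain ⟨k, hk, rfl⟩ := h1
      obtain ⟨l, hl, h3⟩ := h2
      have e1 : l = k := Prod.ext (congrArg (fun z => z.1.1) h3) (congrArg (fun z => z.2) h3)
      have e2 : -t l = t k := congrArg (fun z => z.1.2) h3
      subst e1
      exact (hty l (Finset.mem_filter.1 hk).2).1 (by linarith)
    have h1 := joint_lims hab hmod X₀ X hX hd hdisj hc ∅
      ((A.image fun w => ((w.1, t w), w.2)) ∪ (A.image fun w => ((w.1, -t w), w.2)))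
      (fun _ => 0) (fun w => y (w.1.1, w.2))
      (fun z hz => absurd hz (Finset.notMem_empty z)) (fun w hw => by
        rw [Finset.mem_union, Finset.mem_image, Finset.mem_image] at hw
        rcases hw with ⟨k, hk, rfl⟩ | ⟨k, hk, rfl⟩
        · exact (hty k (Finset.mem_filter.1 hk).2).2.2
        · refine (hty k (Finset.mem_filter.1 hk).2).2.2.congr fun ε => ?_
          rw [Pool.Agent.V7H44.HF.size_neg, Pool.Agent.V7H44.HF.size_neg])
    rw [Finset.sum_empty, zero_add, Finset.sum_union hdis, Finset.sum_image hinj,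
      Finset.sum_image hinj'] at h1
    have h2 : ∑ _w ∈ A, 1 / (r : ℝ) ≤ ∑ w ∈ A, y w ^ 2 / ((pairOrbits K (L w.2) : ℝ) - 1) :=
      Finset.sum_le_sum fun w hw => hterm _ _ (hty w (Finset.mem_filter.1 hw).2).2.1
    rw [Finset.sum_const, nsmul_eq_mul] at h2
    rw [Nat.card_eq_fintype_card, Fintype.card_subtype]
    change 2 * A.card ≤ _
    rcases A.eq_empty_or_nonempty with h0 | h0
    · rw [h0, Finset.card_empty]
      exact Nat.zero_le _
    · have h1' : (∑ w ∈ A, y w ^ 2 / ((pairOrbits K (L w.2) : ℝ) - 1)) +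
          (∑ w ∈ A, y w ^ 2 / ((pairOrbits K (L w.2) : ℝ) - 1)) ≤ (N4 K : ℝ) := h1
      have h4 : 2 * ((A.card : ℝ) * (1 / (r : ℝ))) ≤ (N4 K : ℝ) := by linarith
      have h3 := mul_le_mul_of_nonneg_left h4 (Nat.cast_nonneg (α := ℝ) r)
      have e : (r : ℝ) * (2 * ((A.card : ℝ) * (1 / (r : ℝ)))) = 2 * A.card := by
        calc (r : ℝ) * (2 * ((A.card : ℝ) * (1 / (r : ℝ)))) =
              2 * (A.card : ℝ) * ((r : ℝ) * (1 / (r : ℝ))) := by ring
          _ = 2 * A.card := by rw [hfin A h0, mul_one]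
      rw [e] at h3
      exact_mod_cast h3

end

end Pool.Agent.V7H83.BO
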