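import Pool.Agent.V7H83.BO.H

/-! The number of the twists with zeros or poles over an extension. -/

set_option autoImplicit false
set_option linter.unusedSectionVars false
open Classical

namespace Pool.Agent.V7H83.BO

open Complex Filter Topology ComplexConjugate NumberField IsDedekindDomain Asymptotics
  Pool.Agent.W401.Cheb Pool.Agent.W540.BE Pool.Agent.W353.L1 Pool.Agent.W353.NF
open Pool.Agent.TH322.BC Pool.Agent.X288.L2
open Pool.Agent.W353.AB (Sy syE)
open Pool.Agent.TH322.BC.Edge (TwistOver MinimalModels LSeries size HasOrder size_twist size_base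
  orders)
open Pool.Agent.Y722.EP (IsModular)

/-- a bound for the systems of representatives gives a bound for the whole set -/
theorem transversal {ι : Type} [Fintype ι] (s : Setoid ι) (Q : ι → Prop) {q M c : ℕ}
    (hq : ∀ k, Nat.card {l // s.r k l} ≤ q)
    (hM : ∀ A : Finset ι, (∀ k ∈ A, Q k) → (∀ k ∈ A, ∀ l ∈ A, k ≠ l → ¬ s.r k l) →
      c * A.card ≤ M) : c * Nat.card {k // Q k} ≤ q * M := by
  set Z : Finset ι := Finset.univ.filter Q with hZ
  set g : ι → Quotient s := Quotient.mk s with hg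
  have h1 : Z.card ≤ q * (Z.image g).card := by
    refine Finset.card_le_mul_card_image Z q fun b hb => ?_
    obtain ⟨k, hk, rfl⟩ := Finset.mem_image.1 hb
    refine le_trans ?_ (hq k)
    rw [Nat.card_eq_fintype_card, Fintype.card_subtype]
    refine Finset.card_le_card fun l hl => ?_
    rw [Finset.mem_filter] at hl ⊢
    exact ⟨Finset.mem_univ _, s.symm (Quotient.exact hl.2)⟩
  have h2 : ∃ A : Finset ι, (∀ k ∈ A, Q k) ∧ (∀ k ∈ A, ∀ l ∈ A, k ≠ l → ¬ s.r k l) ∧
      A.card = (Z.image g).card := by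
    have hch : ∀ b : Quotient s, ∃ k : ι, b ∈ Z.image g → (k ∈ Z ∧ g k = b) := by
      intro b
      by_cases hb : b ∈ Z.image g
      · obtain ⟨k, hk, hkb⟩ := Finset.mem_image.1 hb
        exact ⟨k, fun _ => ⟨hk, hkb⟩⟩
      · exact ⟨b.out, fun h => absurd h hb⟩
    choose f hf using hch
    refine ⟨(Z.image g).image f, ?_, ?_, ?_⟩
    · intro k hk
      obtain ⟨b, hb, rfl⟩ := Finset.mem_image.1 hk
      exact (Finset.mem_filter.1 (hf b hb).1).2
    · intro k hk l hl hkl hr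
      obtain ⟨b, hb, rfl⟩ := Finset.mem_image.1 hk
      obtain ⟨b', hb', rfl⟩ := Finset.mem_image.1 hl
      apply hkl
      have h3 : g (f b) = g (f b') := Quotient.sound hr
      rw [(hf b hb).2, (hf b' hb').2] at h3
      rw [h3]
    · refine Finset.card_image_of_injOn fun b hb b' hb' h => ?_
      have h3 := (hf b (Finset.mem_coe.1 hb)).2
      have h4 := (hf b' (Finset.mem_coe.1 hb')).2
      rw [← h3, ← h4, h]
  obtain ⟨A, hA1, hA2, hA3⟩ := h2
  have h3 := hM A hA1 hA2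
  rw [Nat.card_eq_fintype_card, Fintype.card_subtype]
  change c * Z.card ≤ q * M
  calc c * Z.card ≤ c * (q * (Z.image g).card) := Nat.mul_le_mul_left c h1
    _ = q * (c * A.card) := by rw [hA3]; ring
    _ ≤ q * M := Nat.mul_le_mul_left q h3

section
variable {K : Type} [Field K] [NumberField K] {a b : ℤ} (hab : 4 * a ^ 3 + 27 * b ^ 2 ≠ 0)
  (hmod : IsModular a b) {ι : Type} [Fintype ι]

theorem EC_map (F : Type) [Field F] [Algebra K F] (a b : ℤ) :
    (EC K a b).map (algebraMap K F) = EC F a b := by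
  ext <;> simp [EC, WeierstrassCurve.map]

/-- the same twist, over the extension as the base -/
def up {F : Type} [Field F] [NumberField F] [Algebra K F] (X : TwistOver (EC K a b) F) :
    TwistOver (EC F a b) F where
  D := X.D
  D_ne_zero := X.D_ne_zero
  V := X.V
  minimal := by
    have h := X.minimal
    rw [EC_map (K := K) F a b] at h
    rw [EC_map (K := F) F a b]
    exact h

/-- the equivalence of the twists over the extension -/
def sq {F : Type} [Field F] [NumberField F] [Algebra K F] (X : ι → TwistOver (EC K a b) F) :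
    Setoid ι where
  r k l := IsSquare (((X k).D : F) * ((X l).D : F))
  iseqv := by
    have h0 : ∀ k, ((X k).D : F) ≠ 0 := fun k =>
      Pool.Agent.TH322.BC.Edge.coe_ne (X k).D_ne_zero
    refine ⟨fun k => ⟨_, rfl⟩, fun {k l} h => by rwa [mul_comm] at h, fun {k l m} h h' => ?_⟩
    obtain ⟨x, hx⟩ := h
    obtain ⟨y, hy⟩ := h'
    refine ⟨x * y / ((X l).D : F), ?_⟩
    have h1 := h0 l
    field_simp
    calc ((X k).D : F) * ((X m).D : F) * ((X l).D : F) ^ 2 =
          (((X k).D : F) * ((X l).D : F)) * (((X l).D : F) * ((X m).D : F)) := by ring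
      _ = _ := by rw [hx, hy]; ring

include hab hmod in
/-- the number of the twists with zeros or poles over an extension -/
theorem count_up {F : Type} [Field F] [NumberField F] [Algebra K F]
    (X : ι → TwistOver (EC K a b) F) {q : ℕ}
    (hq : ∀ k, Nat.card {l // IsSquare (((X k).D : F) * ((X l).D : F))} ≤ q) :
    Nat.card {k // ∃ τ : ℝ, ∃ y : ℝ, 1 ≤ y ^ 2 ∧ Tendsto (size (X k).V τ) (𝓝[>] 0) (𝓝 y)} ≤
      q * N4 F ∧
    2 * Nat.card {k // ∃ τ : ℝ, τ ≠ 0 ∧ ∃ y : ℝ, 1 ≤ y ^ 2 ∧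
      Tendsto (size (X k).V τ) (𝓝[>] 0) (𝓝 y)} ≤ q * N4 F := by
  have key : ∀ A : Finset ι, (∀ k ∈ A, ∀ l ∈ A, k ≠ l → ¬ (sq X).r k l) →
      (Nat.card {k : A // ∃ τ : ℝ, ∃ y : ℝ, 1 ≤ y ^ 2 ∧
        Tendsto (fun ε => size (X k.1).V τ ε) (𝓝[>] 0) (𝓝 y)} : ℝ) ≤ (N4 F : ℝ) ∧
      2 * (Nat.card {k : A // ∃ τ : ℝ, τ ≠ 0 ∧ ∃ y : ℝ, 1 ≤ y ^ 2 ∧
        Tendsto (fun ε => size (X k.1).V τ ε) (𝓝[>] 0) (𝓝 y)} : ℝ) ≤ (N4 F : ℝ) := by
    intro A hA
    exact count (s := fun (k : A) τ ε => size (X k.1).V τ ε) (W := (N4 F : ℝ))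
      (fun k τ ε => Pool.Agent.V7H44.HF.size_neg _ τ ε)
      (own_fin (K := F) hab hmod (fun k : A => up (X k.1))
        (fun k l hkl => hA k.1 k.2 l.1 l.2 fun h => hkl (Subtype.ext h)))
  constructor
  · rw [← one_mul (Nat.card _)]
    refine transversal (sq X) _ hq fun A hA1 hA2 => ?_
    have h1 : (Nat.card {k : A // ∃ τ : ℝ, ∃ y : ℝ, 1 ≤ y ^ 2 ∧
        Tendsto (fun ε => size (X k.1).V τ ε) (𝓝[>] 0) (𝓝 y)}) ≤ N4 F := by
      exact_mod_cast (key A hA2).1
    have h2 : Nat.card {k : A // ∃ τ : ℝ, ∃ y : ℝ, 1 ≤ y ^ 2 ∧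
        Tendsto (fun ε => size (X k.1).V τ ε) (𝓝[>] 0) (𝓝 y)} = A.card := by
      rw [Nat.card_congr (Equiv.subtypeUnivEquiv fun k : A => hA1 k.1 k.2),
        Nat.card_eq_fintype_card, Fintype.card_coe]
    rw [one_mul, ← h2]
    exact h1
  · refine transversal (sq X) _ hq fun A hA1 hA2 => ?_
    have h1 : 2 * (Nat.card {k : A // ∃ τ : ℝ, τ ≠ 0 ∧ ∃ y : ℝ, 1 ≤ y ^ 2 ∧
        Tendsto (fun ε => size (X k.1).V τ ε) (𝓝[>] 0) (𝓝 y)}) ≤ N4 F := by
      exact_mod_cast (key A hA2).2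
    have h2 : Nat.card {k : A // ∃ τ : ℝ, τ ≠ 0 ∧ ∃ y : ℝ, 1 ≤ y ^ 2 ∧
        Tendsto (fun ε => size (X k.1).V τ ε) (𝓝[>] 0) (𝓝 y)} = A.card := by
      rw [Nat.card_congr (Equiv.subtypeUnivEquiv fun k : A => hA1 k.1 k.2),
        Nat.card_eq_fintype_card, Fintype.card_coe]
    rw [← h2]
    exact h1

/-- a square in the extension is a square in the closure -/
theorem root_of_square {F : Type} [Field F] [NumberField F] [Algebra K F] {x : K}
    (h : IsSquare (algebraMap K F x)) : Root2 K F F x := by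
  obtain ⟨y, hy⟩ := h
  have hi : Nonempty (F →ₐ[K] AlgebraicClosure K) := ⟨IsAlgClosed.lift⟩
  obtain ⟨i⟩ := hi
  refine ⟨i y, ?_, ?_⟩
  · rw [sup_idem]
    exact (le_iSup (fun i : F →ₐ[K] AlgebraicClosure K => i.fieldRange) i) ⟨y, rfl⟩
  · rw [← map_pow, pow_two, ← hy, AlgHom.commutes]

end

end Pool.Agent.V7H83.BO
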